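import Mathlib

/-! Affine-invariant properties, local constraints, single orbits (MP_cb1103_lc). -/

namespace H79SO

/-- `P` is affine-invariant (it is an `F`-subspace, stable under `x ↦ a x + b`, `a ≠ 0`). -/
def AffInv {F K : Type} [Field F] [Field K] (P : Submodule F (K → F)) : Prop :=
  ∀ f ∈ P, ∀ a b : K, a ≠ 0 → (fun x => f (a * x + b)) ∈ P

/-- A `k`-local constraint `(α_1, …, α_k; S)`, with `S` a proper subset of `F^k`. -/
structure Constr (F K : Type) (k : ℕ) where
  pt : Fin k → K
  S : Set (Fin k → F)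
  proper : S ≠ Set.univ

/-- `f` satisfies the constraint `C`. -/
def Sat {F K : Type} {k : ℕ} (f : K → F) (C : Constr F K k) : Prop :=
  (fun i => f (C.pt i)) ∈ C.S

/-- The constraint `C ∘ π` for `π x = a x + b`. -/
def Constr.comp {F K : Type} [Field K] {k : ℕ} (C : Constr F K k) (a b : K) : Constr F K k where
  pt := fun i => a * C.pt i + b
  S := C.S
  proper := C.proper

/-- `P` has a `k`-local characterization. -/
def LocalChar {F K : Type} [Field F] (k : ℕ) (P : Submodule F (K → F)) : Prop :=
  ∃ T : Set (Constr F K k), ∀ f : K → F, f ∈ P ↔ ∀ C ∈ T, Sat f C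

/-- `P` has a `k`-single orbit characterization. -/
def SingleOrbit {F K : Type} [Field F] [Field K] (k : ℕ) (P : Submodule F (K → F)) : Prop :=
  ∃ C : Constr F K k, ∀ f : K → F, f ∈ P ↔ ∀ a b : K, a ≠ 0 → Sat f (C.comp a b)

end H79SO
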