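import Mathlib
import Pool.Agent.T6.H79.SO.Defs

open Finset

namespace H79SO

variable {F K : Type} [Field F] [Field K] [Fintype K]

/-- value vectors of `P` at the tuple `α` -/
def VV {k : ℕ} (P : Submodule F (K → F)) (α : Fin k → K) : Submodule F (Fin k → F) :=
  P.map (LinearMap.funLeft F F α)

/-- the functions which satisfy all affine images of the constraints at the tuples of `A` -/
def QQ {k : ℕ} (P : Submodule F (K → F)) (A : Finset (Fin k → K)) : Submodule F (K → F) where
  carrier := {f | ∀ α ∈ A, ∀ a b : K, a ≠ 0 → (fun i => f (a * α i + b)) ∈ VV P α}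
  add_mem' := by
    intro f g hf hg α hα a b ha
    exact (VV P α).add_mem (hf α hα a b ha) (hg α hα a b ha)
  zero_mem' := by
    intro α hα a b ha
    exact (VV P α).zero_mem
  smul_mem' := by
    intro c f hf α hα a b ha
    exact (VV P α).smul_mem c (hf α hα a b ha)

theorem le_QQ {k : ℕ} (P : Submodule F (K → F)) (hP : AffInv P) (A : Finset (Fin k → K)) :
    P ≤ QQ P A := by
  intro f hf α _ a b ha
  exact ⟨_, hP f hf a b ha, rfl⟩

theorem greedy [DecidableEq K] {k : ℕ} (P : Submodule F (K → F)) (hP : AffInv P)
    (T : Set (Fin k → K))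
    (hT : ∀ f : K → F, (∀ α ∈ T, (fun i => f (α i)) ∈ VV P α) → f ∈ P) :
    ∀ (d : ℕ) (A : Finset (Fin k → K)), Module.finrank F (QQ P A) ≤ Module.finrank F P + d →
      ∃ A' : Finset (Fin k → K), A ⊆ A' ∧ A'.card ≤ A.card + d ∧ QQ P A' = P := by
  classical
  intro d
  induction d with
  | zero =>
    intro A hA
    exact ⟨A, Finset.Subset.refl _, le_refl _,
      (Submodule.eq_of_le_of_finrank_le (le_QQ P hP A) hA).symm⟩
  | succ d ih =>
    intro A hA
    by_cases hEq : QQ P A = P
    · exact ⟨A, Finset.Subset.refl _, by omega, hEq⟩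
    have hlt : P < QQ P A := lt_of_le_of_ne (le_QQ P hP A) (Ne.symm hEq)
    obtain ⟨f, hf1, hf2⟩ := SetLike.exists_of_lt hlt
    have : ∃ α ∈ T, (fun i => f (α i)) ∉ VV P α := by
      by_contra hcon
      push Not at hcon
      exact hf2 (hT f hcon)
    obtain ⟨α, _, hα⟩ := this
    have hle : QQ P (insert α A) ≤ QQ P A := by
      intro g hg β hβ a b ha
      exact hg β (Finset.mem_insert_of_mem hβ) a b ha
    have hlt2 : QQ P (insert α A) < QQ P A := by
      refine lt_of_le_of_ne hle ?_
      intro h
      rw [← h] at hf1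
      have := hf1 α (Finset.mem_insert_self _ _) 1 0 one_ne_zero
      simp only [one_mul, add_zero] at this
      exact hα this
    have hfr := Submodule.finrank_lt_finrank_of_lt hlt2
    obtain ⟨A', h1, h2, h3⟩ := ih (insert α A) (by omega)
    refine ⟨A', (Finset.subset_insert _ _).trans h1, ?_, h3⟩
    have := Finset.card_insert_le α A
    omega

theorem single_of_QQ [DecidableEq K] {k : ℕ} (P : Submodule F (K → F)) (A : Finset (Fin k → K))
    (α₀ : Fin k → K) (h0 : α₀ ∈ A) (hV : VV P α₀ ≠ ⊤) (hQ : QQ P A = P) :
    SingleOrbit (A.card * k) P := by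
  classical
  let en : Fin A.card ≃ A := A.equivFin.symm
  let C : Constr F K (A.card * k) :=
    { pt := fun j => (en (finProdFinEquiv.symm j).1).1 (finProdFinEquiv.symm j).2
      S := {v | ∀ l : Fin A.card, (fun i => v (finProdFinEquiv (l, i))) ∈ VV P (en l).1}
      proper := by
        intro hS
        have : ∃ u : Fin k → F, u ∉ VV P α₀ := by
          by_contra hcon
          push Not at hcon
          exact hV (eq_top_iff.2 fun u _ => hcon u)
        obtain ⟨u, hu⟩ := this
        have hmem : (fun j : Fin (A.card * k) => u (finProdFinEquiv.symm j).2) ∈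
            {v : Fin (A.card * k) → F | ∀ l : Fin A.card,
              (fun i => v (finProdFinEquiv (l, i))) ∈ VV P (en l).1} := by
          rw [hS]; trivial
        have h1 := hmem (en.symm ⟨α₀, h0⟩)
        simp only [Equiv.symm_apply_apply, Equiv.apply_symm_apply] at h1
        exact hu h1 }
  refine ⟨C, fun f => ?_⟩
  rw [← hQ]
  constructor
  · intro hf a b ha l
    have := hf (en l).1 (en l).2 a b ha
    simp only [C, Constr.comp, Equiv.symm_apply_apply]
    exact this
  · intro hf α hα a b ha
    have := hf a b ha (en.symm ⟨α, hα⟩)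
    simp only [C, Constr.comp, Equiv.symm_apply_apply, Equiv.apply_symm_apply] at this
    exact this

end H79SO
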