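import Mathlib
import Pool.Agent.T6.H79.SO.Defs

open Finset

namespace H79SO

variable {F K : Type} [Field F] [Field K]

/-- all `d`-fold differences vanish -/
def Van : ℕ → (K → F) → Prop
  | 0, f => ∀ x, f x = 0
  | d + 1, f => ∀ h : K, Van d (fun x => f (x + h) - f x)

theorem van_zero : ∀ d : ℕ, Van d (fun _ : K => (0 : F)) := by
  intro d
  induction d with
  | zero => intro x; rfl
  | succ d ih => intro h; simpa using ih

theorem van_of_zero (d : ℕ) (f : K → F) (hf : ∀ x, f x = 0) : Van d f := by
  have : f = fun _ => 0 := funext hf
  rw [this]; exact van_zero d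

theorem van_succ : ∀ (d : ℕ) (f : K → F), Van d f → Van (d + 1) f := by
  intro d
  induction d with
  | zero =>
    intro f hf h x
    simp [hf _]
  | succ d ih =>
    intro f hf h
    exact ih _ (hf h)

theorem van_mono (d e : ℕ) (hde : d ≤ e) (f : K → F) (hf : Van d f) : Van e f := by
  induction e, hde using Nat.le_induction with
  | base => exact hf
  | succ e _ ih => exact van_succ e f ih

theorem van_smul : ∀ (d : ℕ) (c : F) (f : K → F), Van d f → Van d (fun x => c * f x) := by
  intro d
  induction d with
  | zero =>
    intro c f hf x
    simp [hf x]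
  | succ d ih =>
    intro c f hf h
    have := ih c _ (hf h)
    have e : (fun x => c * f (x + h) - c * f x) = fun x => c * (f (x + h) - f x) := by
      funext x; ring
    show Van d (fun x => c * f (x + h) - c * f x)
    rw [e]; exact this

/-- differences from a linear relation -/
theorem van_of_rel [DecidableEq K] : ∀ (n : ℕ) (s : Finset K) (hs : s.card = n + 1) (g : K → K → F)
    (_ : ∀ a b : K, ∑ i ∈ s, g i (b + a * i) = 0) (i : K) (_ : i ∈ s), Van n (g i) := by
  intro n
  induction n with
  | zero =>
    intro s hs g hg i hi x
    obtain ⟨j, rfl⟩ := Finset.card_eq_one.1 hs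
    rw [Finset.mem_singleton] at hi
    subst hi
    have := hg 0 x
    simpa using this
  | succ n ih =>
    intro s hs g hg i hi
    have : ∃ j ∈ s, j ≠ i := by
      by_contra hcon
      push Not at hcon
      have : s ⊆ {i} := fun j hj => Finset.mem_singleton.2 (hcon j hj)
      have := Finset.card_le_card this
      rw [hs, Finset.card_singleton] at this
      omega
    obtain ⟨j, hj, hji⟩ := this
    intro h
    have key := ih (s.erase j) (by rw [Finset.card_erase_of_mem hj, hs]; rfl)
      (fun l x => g l (x + (h / (i - j)) * (l - j)) - g l x) ?_ i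
      (Finset.mem_erase.2 ⟨hji.symm, hi⟩)
    · have hne : i - j ≠ 0 := sub_ne_zero.2 hji.symm
      have e : (fun x => g i (x + h) - g i x) =
          fun x => g i (x + (h / (i - j)) * (i - j)) - g i x := by
        rw [div_mul_cancel₀ _ hne]
      show Van n (fun x => g i (x + h) - g i x)
      rw [e]
      exact key
    · intro a b
      set c := h / (i - j) with hc
      have h1 := hg (a + c) (b - c * j)
      have h2 := hg a b
      have h3 : ∑ l ∈ s, (g l (b + a * l + c * (l - j)) - g l (b + a * l)) = 0 := by
        rw [Finset.sum_sub_distrib, h2, sub_zero, ← h1]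
        refine Finset.sum_congr rfl fun l _ => ?_
        congr 1
        ring
      rw [← Finset.add_sum_erase _ _ hj] at h3
      simp only [sub_self, mul_zero, add_zero, zero_add] at h3
      exact h3

/-- a function with vanishing differences is determined by few values -/
theorem van_det {I : Type} (e : I → K) (z : I) (hz : e z = 0) : ∀ (d : ℕ) (f : K → F),
    Van (d + 1) f → (∀ M : Multiset I, Multiset.card M = d → f (M.map e).sum = 0) →
    ∀ M : Multiset I, f (M.map e).sum = 0 := by
  intro d
  induction d with
  | zero =>
    intro f hf h0 M
    have h1 := h0 0 rfl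
    simp only [Multiset.map_zero, Multiset.sum_zero] at h1
    have h2 := hf (M.map e).sum 0
    simp only [zero_add] at h2
    rw [h1, sub_zero] at h2
    exact h2
  | succ d ih =>
    intro f hf h0 M
    have hg : ∀ (i : I) (M : Multiset I), f ((M.map e).sum + e i) - f (M.map e).sum = 0 := by
      intro i
      refine ih (fun x => f (x + e i) - f x) (hf (e i)) ?_
      intro M hM
      have h1 := h0 (i ::ₘ M) (by rw [Multiset.card_cons, hM])
      have h2 := h0 (z ::ₘ M) (by rw [Multiset.card_cons, hM])
      simp only [Multiset.map_cons, Multiset.sum_cons, hz, zero_add] at h1 h2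
      rw [add_comm] at h1
      simp only [h1, h2, sub_zero]
    have hall : ∀ M : Multiset I, f (M.map e).sum = f 0 := by
      intro M
      induction M using Multiset.induction_on with
      | empty => simp
      | cons i M ihM =>
        rw [Multiset.map_cons, Multiset.sum_cons, add_comm, sub_eq_zero.1 (hg i M), ihM]
    rw [hall M, ← hall (Multiset.replicate (d + 1) z)]
    exact h0 _ (Multiset.card_replicate _ _)

end H79SO
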