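import Mathlib
import Pool.Agent.T6.H79.SO.Chain
import Pool.Agent.T6.H79.SO.Diff

open Finset

namespace H79SO

variable {F K : Type} [Field F] [Field K] [Fintype K] [DecidableEq K]

/-- the relation also holds for `a = 0` (or the function is zero) -/
theorem rel_zero (hQ : (Fintype.card K : F) = 0) (w : K → F) (f : K → F)
    (h : ∀ a b : K, a ≠ 0 → ∑ x, w x * f (a * x + b) = 0) :
    (∀ x, f x = 0) ∨ ∀ a b : K, ∑ x, w x * f (a * x + b) = 0 := by
  by_cases hw : ∑ x, w x = 0
  · right
    intro a b
    by_cases ha : a = 0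
    · subst ha
      simp only [zero_mul, zero_add, ← Finset.sum_mul, hw]
    · exact h a b ha
  left
  have key : ∀ b : K, (∑ x, w x) * f b = ∑ x, w x * (if x = 0 then 0 else ∑ y, f y) := by
    intro b
    have h1 : ∑ a, ∑ x, w x * f (a * x + b) = ∑ x, w x * f (0 * x + b) :=
      Finset.sum_eq_single (0 : K) (fun a _ ha => h a b ha)
        (fun h => absurd (Finset.mem_univ _) h)
    have h2 : ∑ x, w x * f (0 * x + b) = (∑ x, w x) * f b := by
      rw [Finset.sum_mul]
      exact Finset.sum_congr rfl fun x _ => by rw [zero_mul, zero_add]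
    rw [← h2, ← h1, Finset.sum_comm]
    refine Finset.sum_congr rfl fun x _ => ?_
    rw [← Finset.mul_sum]
    congr 1
    split_ifs with hx
    · subst hx
      simp [hQ]
    · exact Equiv.sum_comp ((Equiv.mulRight₀ x hx).trans (Equiv.addRight b)) f
  have hconst : ∀ b, f b = f 0 := by
    intro b
    exact mul_left_cancel₀ hw ((key b).trans (key 0).symm)
  have hsum : ∑ y, f y = 0 := by
    rw [Finset.sum_congr rfl fun y _ => hconst y, Finset.sum_const, Finset.card_univ,
      nsmul_eq_mul, hQ, zero_mul]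
  intro x
  have := key x
  rw [hsum] at this
  simp only [ite_self, mul_zero, Finset.sum_const_zero] at this
  exact (mul_eq_zero.1 this).resolve_left hw

theorem cover (p N : ℕ) [hp : Fact p.Prime] [CharP K p] (hN : Fintype.card K = p ^ N) :
    ∃ e : Option (Fin N) → K, e none = 0 ∧ ∀ x : K, ∃ M : Multiset (Option (Fin N)),
      (M.map e).sum = x := by
  classical
  letI : Algebra (ZMod p) K := ZMod.algebra K p
  have hfr : Module.finrank (ZMod p) K = N := by
    have h1 := Module.card_eq_pow_finrank (K := ZMod p) (V := K)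
    rw [ZMod.card, hN] at h1
    exact (Nat.pow_right_injective hp.out.two_le h1).symm
  let b := Module.finBasisOfFinrankEq (ZMod p) K hfr
  refine ⟨fun o => o.elim 0 b, rfl, ?_⟩
  set e : Option (Fin N) → K := fun o => o.elim 0 b with he
  let S : AddSubmonoid K :=
    { carrier := {x | ∃ M : Multiset (Option (Fin N)), (M.map e).sum = x}
      add_mem' := by
        rintro x y ⟨M, rfl⟩ ⟨M', rfl⟩
        exact ⟨M + M', by rw [Multiset.map_add, Multiset.sum_add]⟩
      zero_mem' := ⟨0, by simp⟩ }
  intro x
  show x ∈ S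
  rw [← b.sum_repr x]
  refine AddSubmonoid.sum_mem S fun i _ => ?_
  have hb : b i ∈ S := ⟨{some i}, by simp [he]⟩
  have : (b.repr x i) • b i = (b.repr x i).val • b i := by
    rw [← Nat.cast_smul_eq_nsmul (ZMod p), ZMod.natCast_zmod_val]
  rw [this]
  exact AddSubmonoid.nsmul_mem S hb _

/-- dimension of a space of functions with vanishing differences -/
theorem finrank_van (p N : ℕ) [hp : Fact p.Prime] [CharP K p] (hN : Fintype.card K = p ^ N)
    (d : ℕ) (Q : Submodule F (K → F)) (hQ : ∀ f ∈ Q, Van (d + 1) f) :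
    Module.finrank F Q ≤ (N + d).choose d := by
  classical
  obtain ⟨e, he0, he⟩ := cover p N hN
  let ev : Q →ₗ[F] (Sym (Option (Fin N)) d → F) :=
    { toFun := fun f M => f.1 ((M : Multiset (Option (Fin N))).map e).sum
      map_add' := fun f g => rfl
      map_smul' := fun c f => rfl }
  have hinj : Function.Injective ev := by
    rw [injective_iff_map_eq_zero]
    intro f hf
    apply Subtype.ext
    funext x
    obtain ⟨M, rfl⟩ := he x
    refine van_det e none he0 d f.1 (hQ f.1 f.2) ?_ M
    intro M' hM'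
    exact congrFun hf ⟨M', hM'⟩
  have h1 := LinearMap.finrank_le_finrank_of_injective hinj
  rw [Module.finrank_fintype_fun_eq_card, Sym.card_sym_eq_choose, Fintype.card_option,
    Fintype.card_fin] at h1
  have : N + 1 + d - 1 = N + d := by omega
  rwa [this] at h1

theorem upper (p N : ℕ) [hp : Fact p.Prime] [CharP K p] (hpF : (p : F) = 0) (hN0 : N ≠ 0)
    (hN : Fintype.card K = p ^ N)
    (k : ℕ) (P : Submodule F (K → F)) (hP : AffInv P) (htop : P ≠ ⊤) (hk : LocalChar k P) :
    ∃ k' ≤ k * (1 + (N + (k - 2)).choose (k - 2)), SingleOrbit k' P := by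
  classical
  obtain ⟨T, hT⟩ := hk
  have hQ0 : (Fintype.card K : F) = 0 := by
    rw [hN]; push_cast; rw [hpF, zero_pow hN0]
  have hVS : ∀ C ∈ T, ∀ v ∈ VV P C.pt, v ∈ C.S := by
    rintro C hC v ⟨f, hf, rfl⟩
    exact (hT f).1 hf C hC
  have hf : ∃ f, f ∉ P := by
    by_contra hcon
    push Not at hcon
    exact htop (eq_top_iff.2 fun f _ => hcon f)
  obtain ⟨f, hf⟩ := hf
  have hfC := hf
  rw [hT] at hfC
  push Not at hfC
  obtain ⟨C, hC, hfC⟩ := hfC
  have hnV : (fun i => f (C.pt i)) ∉ VV P C.pt := fun h => hfC (hVS C hC _ h)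
  have hVtop : VV P C.pt ≠ ⊤ := by
    intro h
    rw [h] at hnV
    exact hnV trivial
  obtain ⟨ψ, hψ1, hψ2⟩ := Submodule.exists_le_ker_of_notMem hnV
  set h : Fin k → F := fun m => ψ (fun j => if m = j then 1 else 0) with hh
  have hψ : ∀ v : Fin k → F, ψ v = ∑ m, h m * v m := by
    intro v
    rw [LinearMap.pi_apply_eq_sum_univ ψ v]
    refine Finset.sum_congr rfl fun m _ => ?_
    rw [smul_eq_mul, mul_comm]
  set w : K → F := fun x => ∑ m, if C.pt m = x then h m else 0 with hw
  have hws : ∀ G : K → F, ∑ x, w x * G x = ∑ m, h m * G (C.pt m) := by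
    intro G
    simp only [hw, Finset.sum_mul, ite_mul, zero_mul]
    rw [Finset.sum_comm]
    refine Finset.sum_congr rfl fun m _ => ?_
    rw [Finset.sum_ite_eq]
    simp
  set s := univ.filter (fun x => w x ≠ 0) with hs
  have hsk : s.card ≤ k := by
    have : s ⊆ Finset.image C.pt univ := by
      intro x hx
      simp only [hs, Finset.mem_filter, Finset.mem_univ, true_and] at hx
      by_contra hcon
      apply hx
      simp only [hw]
      refine Finset.sum_eq_zero fun m _ => ?_
      rw [if_neg]
      intro hm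
      exact hcon (Finset.mem_image.2 ⟨m, Finset.mem_univ _, hm⟩)
    calc s.card ≤ (Finset.image C.pt univ).card := Finset.card_le_card this
      _ ≤ (univ : Finset (Fin k)).card := Finset.card_image_le
      _ = k := by simp
  have hs0 : s.Nonempty := by
    rw [Finset.nonempty_iff_ne_empty]
    intro hemp
    apply hψ1
    rw [hψ, ← hws f]
    refine Finset.sum_eq_zero fun x _ => ?_
    have : x ∉ s := by rw [hemp]; simp
    have : w x = 0 := by
      by_contra hx
      exact this (by simp [hs, hx])
    rw [this, zero_mul]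
  obtain ⟨i₀, hi₀⟩ := hs0
  have hwi : w i₀ ≠ 0 := by simpa [hs] using hi₀
  have hvan : ∀ g ∈ QQ P {C.pt}, Van (k - 2 + 1) g := by
    intro g hg
    have hrel : ∀ a b : K, a ≠ 0 → ∑ x, w x * g (a * x + b) = 0 := by
      intro a b ha
      have h1 := hg C.pt (Finset.mem_singleton_self _) a b ha
      have h2 := hψ2 h1
      rw [LinearMap.mem_ker, hψ] at h2
      rw [hws (fun x => g (a * x + b))]
      exact h2
    rcases rel_zero hQ0 w g hrel with h0 | h0
    · exact van_of_zero _ _ h0
    have hc : 1 ≤ s.card := Finset.card_pos.2 ⟨i₀, hi₀⟩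
    have h3 := van_of_rel (s.card - 1) s (by omega) (fun i y => w i * g y) ?_ i₀ hi₀
    · have h4 := van_smul _ (w i₀)⁻¹ _ h3
      have h5 : (fun x => (w i₀)⁻¹ * (w i₀ * g x)) = g := by
        funext x
        rw [← mul_assoc, inv_mul_cancel₀ hwi, one_mul]
      rw [h5] at h4
      exact van_mono _ _ (by omega) _ h4
    · intro a b
      rw [← h0 a b]
      refine (Finset.sum_subset (Finset.subset_univ s) ?_).trans ?_
      · intro x _ hx
        have : w x = 0 := by
          by_contra hx'
          exact hx (by simp [hs, hx'])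
        rw [this, zero_mul]
      · refine Finset.sum_congr rfl fun x _ => ?_
        rw [add_comm]
  have hfin := finrank_van p N hN (k - 2) _ hvan
  obtain ⟨A', h1, h2, h3⟩ := greedy P hP {α | ∃ C ∈ T, C.pt = α} (by
    intro f hf
    rw [hT]
    intro C hC
    exact hVS C hC _ (hf C.pt ⟨C, hC, rfl⟩)) ((N + (k - 2)).choose (k - 2)) {C.pt} (by omega)
  rw [Finset.card_singleton] at h2
  refine ⟨A'.card * k, ?_, single_of_QQ P A' C.pt (h1 (Finset.mem_singleton_self _)) hVtop h3⟩
  rw [mul_comm]
  exact Nat.mul_le_mul_left k h2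

end H79SO
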