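import Mathlib
import Pool.Agent.T6.H79.SO.Upper

open Finset

namespace H79SO

variable {F K : Type} [Field F] [Field K]

/-- second difference in characteristic two -/
def DD (g : K → F) (u v b : K) : F := g b + g (b + u) + g (b + v) + g (b + u + v)

/-- third differences vanish -/
def Quad (g : K → F) : Prop := ∀ u v w b, DD g u v (b + w) = DD g u v b

section char2

variable (h2 : ∀ c : F, c + c = 0) (hK : ∀ x : K, x + x = 0)

include h2 in
theorem neg2 (c : F) : -c = c := neg_eq_of_add_eq_zero_left (h2 c)

theorem DD_comm (g : K → F) (u v b : K) : DD g u v b = DD g v u b := by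
  unfold DD
  rw [show b + u + v = b + v + u by ring]
  ring

include h2 in
theorem quad_of_van (g : K → F) (h : Van 3 g) : Quad g := by
  intro u v w b
  have h1 := h u v w b
  simp only at h1
  unfold DD
  have e1 : b + w + v + u = b + w + u + v := by ring
  have e2 : b + v + u = b + u + v := by ring
  rw [e1, e2] at h1
  simp only [sub_eq_add_neg, neg_add, neg2 h2] at h1
  have h3 := h2 (g b + g (b + u) + g (b + v) + g (b + u + v))
  linear_combination h1 - h3

include h2 hK in
theorem mulClosed [Fintype K] (hKc : ∀ x : K, x ^ Fintype.card K = x) (hev : ∃ m, Fintype.card K = 2 * m)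
    (g : K → F) (hg : Quad g) (γ δ : K)
    (hγ : ∀ u b, DD g u (γ * u) b = 0) (hδ : ∀ u b, DD g u (δ * u) b = 0) :
    ∀ u b, DD g u (γ * δ * u) b = 0 := by
  have hb : ∀ u v b, DD g u v b = DD g u v 0 := by
    intro u v b
    have := hg u v b 0
    rwa [zero_add] at this
  have hadd : ∀ u u' v, DD g (u + u') v 0 = DD g u v 0 + DD g u' v 0 := by
    intro u u' v
    rw [← hb u' v u]
    unfold DD
    have e1 := h2 (g u + g (u + v))
    have : u + u' + v = u + (u' + v) := by ring
    simp only [zero_add]
    linear_combination -e1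
  have hsym : ∀ u v, DD g u v 0 = DD g v u 0 := fun u v => DD_comm g u v 0
  have hadd2 : ∀ u v v', DD g u (v + v') 0 = DD g u v 0 + DD g u v' 0 := by
    intro u v v'
    rw [hsym, hadd, hsym v, hsym v']
  have halt : ∀ u, DD g u u 0 = 0 := by
    intro u
    unfold DD
    have e1 := h2 (g 0)
    have e2 := h2 (g u)
    have e3 : (0 : K) + u + u = 0 := by rw [zero_add, hK]
    rw [e3, zero_add]
    linear_combination e1 + e2
  have hself : ∀ γ : K, (∀ u b, DD g u (γ * u) b = 0) →
      ∀ u v, DD g u (γ * v) 0 = DD g (γ * u) v 0 := by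
    intro γ hγ u v
    have e1 := hγ (u + v) 0
    rw [mul_add, hadd, hadd2, hadd2, hγ u 0, hγ v 0, zero_add, add_zero] at e1
    rw [hsym (γ * u) v]
    have e2 := h2 (DD g v (γ * u) 0)
    linear_combination e1 - e2
  have h1 := hself γ hγ
  have h3 := hself δ hδ
  have h4 : ∀ u v, DD g u (γ * δ * v) 0 = DD g (γ * δ * u) v 0 := by
    intro u v
    rw [mul_assoc, h1, h3, ← mul_assoc, mul_comm δ γ]
  have hpow : ∀ n : ℕ, ∀ u v, DD g u ((γ * δ) ^ n * v) 0 = DD g ((γ * δ) ^ n * u) v 0 := by
    intro n
    induction n with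
    | zero => intro u v; simp
    | succ n ih =>
      intro u v
      rw [pow_succ, mul_assoc, ih, h4, ← mul_assoc, mul_comm (γ * δ) ((γ * δ) ^ n)]
  obtain ⟨m, hm⟩ := hev
  intro u b
  rw [hb]
  have h5 : γ * δ = (γ * δ) ^ m * (γ * δ) ^ m := by
    rw [← pow_add, ← two_mul, ← hm, hKc]
  rw [h5, mul_assoc, hpow, halt]

include h2 in
/-- four points with nonzero sum -/
theorem const_of_four (g : K → F) (hg : Quad g) (x1 x2 x3 x4 : K) (hs : x1 + x2 + x3 + x4 ≠ 0)
    (hr : ∀ a b : K, g (b + a * x1) + g (b + a * x2) + g (b + a * x3) + g (b + a * x4) = 0) :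
    ∀ x y, g x = g y := by
  have key : ∀ h : K → F, (∀ u v b, DD h u v b = 0) →
      (∀ a b : K, h (b + a * x1) + h (b + a * x2) + h (b + a * x3) + h (b + a * x4) = 0) →
      ∀ c b, h (b + c) = h b := by
    intro h hD hr c b
    set a := c / (x1 + x2 + x3 + x4) with ha
    have hc : a * (x1 + x2 + x3 + x4) = c := div_mul_cancel₀ _ hs
    have e0 := hr a b
    have e1 := hD (a * x1) (a * x2) b
    have e2 := hD (a * x3) (a * x4) b
    have e3 := hD (a * x1 + a * x2) (a * x3 + a * x4) b
    unfold DD at e1 e2 e3
    have t1 : b + (a * x1 + a * x2) = b + a * x1 + a * x2 := by ring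
    have t2 : b + (a * x3 + a * x4) = b + a * x3 + a * x4 := by ring
    have t3 : b + (a * x1 + a * x2) + (a * x3 + a * x4) = b + c := by rw [← hc]; ring
    rw [t3, t1, t2] at e3
    have f1 := h2 (h b)
    have f2 := h2 (h (b + a * x1) + h (b + a * x2) + h (b + a * x3) + h (b + a * x4))
    have f3 := h2 (h (b + a * x1 + a * x2) + h (b + a * x3 + a * x4))
    linear_combination e3 + e1 + e2 + e0 - f2 - f3 - 2 * f1
  have hD : ∀ c c' b, DD g c c' b = 0 := by
    intro c c' b
    have := key (fun x => g (x + c) + g x) ?_ ?_ c' b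
    · unfold DD
      have t1 : b + c' + c = b + c + c' := by ring
      rw [t1] at this
      have f1 := h2 (g (b + c) + g b)
      linear_combination this + f1
    · intro u v b
      have e1 := hg u v c b
      unfold DD at e1 ⊢
      have s1 : b + u + c = b + c + u := by ring
      have s2 : b + v + c = b + c + v := by ring
      have s3 : b + u + v + c = b + c + u + v := by ring
      simp only [s1, s2, s3]
      have f1 := h2 (g b + g (b + u) + g (b + v) + g (b + u + v))
      linear_combination e1 + f1
    · intro a b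
      have e1 := hr a b
      have e2 := hr a (b + c)
      have s : ∀ x, b + a * x + c = b + c + a * x := fun x => by ring
      simp only [s]
      linear_combination e1 + e2
  intro x y
  have := key g hD hr (y - x) x
  rw [add_sub_cancel] at this
  exact this.symm

end char2

end H79SO
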