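import Mathlib
import Pool.Agent.T6.H79.SO.Binary

open Finset

namespace H79SO

variable {F K : Type} [Field F] [Field K]

/-- a word of small support separating a function from `P` -/
theorem exists_sep [Fintype K] [DecidableEq K] [DecidableEq F] (k : ℕ) (P : Submodule F (K → F))
    (hk : LocalChar k P) (f : K → F) (hf : f ∉ P) :
    ∃ w : K → F, (univ.filter (fun x => w x ≠ 0)).card ≤ k ∧ (∀ g ∈ P, ∑ x, w x * g x = 0) ∧
      ∑ x, w x * f x ≠ 0 := by
  obtain ⟨T, hT⟩ := hk
  have hfC := hf
  rw [hT] at hfC
  push Not at hfC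
  obtain ⟨C, hC, hfC⟩ := hfC
  have hnV : (fun i => f (C.pt i)) ∉ VV P C.pt := by
    rintro ⟨g, hg, hgf⟩
    apply hfC
    have h1 := (hT g).1 hg C hC
    have h2 : (fun i => g (C.pt i)) = fun i => f (C.pt i) := hgf
    unfold Sat at h1 ⊢
    rw [h2] at h1
    exact h1
  obtain ⟨ψ, hψ1, hψ2⟩ := Submodule.exists_le_ker_of_notMem hnV
  set h : Fin k → F := fun m => ψ (fun j => if m = j then 1 else 0) with hh
  have hψ : ∀ v : Fin k → F, ψ v = ∑ m, h m * v m := by
    intro v
    rw [LinearMap.pi_apply_eq_sum_univ ψ v]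
    refine Finset.sum_congr rfl fun m _ => ?_
    rw [smul_eq_mul, mul_comm]
  refine ⟨fun x => ∑ m, if C.pt m = x then h m else 0, ?_, ?_, ?_⟩
  · have : (univ.filter (fun x => (∑ m, if C.pt m = x then h m else 0) ≠ 0)) ⊆
        Finset.image C.pt univ := by
      intro x hx
      simp only [Finset.mem_filter, Finset.mem_univ, true_and] at hx
      by_contra hcon
      apply hx
      refine Finset.sum_eq_zero fun m _ => ?_
      rw [if_neg]
      intro hm
      exact hcon (Finset.mem_image.2 ⟨m, Finset.mem_univ _, hm⟩)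
    calc _ ≤ (Finset.image C.pt univ).card := Finset.card_le_card this
      _ ≤ (univ : Finset (Fin k)).card := Finset.card_image_le
      _ = k := by simp
  all_goals
    have hws : ∀ G : K → F, ∑ x, (∑ m, if C.pt m = x then h m else 0) * G x =
        ∑ m, h m * G (C.pt m) := by
      intro G
      simp only [Finset.sum_mul, ite_mul, zero_mul]
      rw [Finset.sum_comm]
      refine Finset.sum_congr rfl fun m _ => ?_
      rw [Finset.sum_ite_eq]
      simp
  · intro g hg
    rw [hws g]
    have h2 : ψ (fun i => g (C.pt i)) = 0 := hψ2 ⟨g, hg, rfl⟩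
    rw [hψ] at h2
    exact h2
  · rw [hws f, ← hψ]
    exact hψ1

theorem zero_of_sum [Fintype K] [DecidableEq K] (hQ : (Fintype.card K : F) = 0) (w : K → F)
    (hw : ∑ x, w x ≠ 0) (f : K → F)
    (h : ∀ a b : K, a ≠ 0 → ∑ x, w x * f (a * x + b) = 0) : ∀ x, f x = 0 := by
  rcases rel_zero hQ w f h with h0 | h0
  · exact h0
  intro b
  have := h0 0 b
  simp only [zero_mul, zero_add, ← Finset.sum_mul] at this
  exact (mul_eq_zero.1 this).resolve_left hw

/-- the three types of words over a field with two elements -/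
theorem sep_two [Fintype K] [DecidableEq K] [DecidableEq F] (hF : ∀ c : F, c = 0 ∨ c = 1)
    (h2 : ∀ c : F, c + c = 0) (hK : ∀ x : K, x + x = 0) (hQ : (Fintype.card K : F) = 0)
    (k : ℕ) (hk5 : k ≤ 5) (P : Submodule F (K → F)) (hP : AffInv P)
    (hk : LocalChar k P) (hnc : ∃ g ∈ P, ∃ x y : K, g x ≠ g y) (f : K → F) (hf : f ∉ P) :
    ∃ u v b : K, u ≠ 0 ∧ v ≠ 0 ∧ u ≠ v ∧ DD f u v b ≠ 0 ∧
      ∀ g ∈ P, ∀ a b : K, DD g (a * u) (a * v) b = 0 := by
  obtain ⟨w, hw1, hw2, hw3⟩ := exists_sep k P hk f hf
  set s := univ.filter (fun x => w x ≠ 0) with hs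
  have hsum : ∀ G : K → F, ∑ x, w x * G x = ∑ x ∈ s, G x := by
    intro G
    rw [hs, Finset.sum_filter]
    refine Finset.sum_congr rfl fun x _ => ?_
    rcases hF (w x) with h | h <;> simp [h]
  have hrel : ∀ g ∈ P, ∀ a b : K, a ≠ 0 → ∑ x, w x * g (a * x + b) = 0 := by
    intro g hg a b ha
    exact hw2 _ (hP g hg a b ha)
  obtain ⟨g0, hg0, p, q, hpq⟩ := hnc
  have hw0 : ∑ x, w x = 0 := by
    by_contra hne
    have := zero_of_sum hQ w hne g0 (hrel g0 hg0)
    rw [this p, this q] at hpq
    exact hpq rfl
  have hodd : (s.card : F) = 0 := by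
    have h1 := hsum (fun _ => 1)
    simp only [mul_one, Finset.sum_const, nsmul_eq_mul] at h1
    rw [← h1, hw0]
  have h11 : (1 : F) + 1 = 0 := h2 1
  have hcases : s.card = 0 ∨ s.card = 2 ∨ s.card = 4 := by
    have h5 : s.card ≤ 5 := hw1.trans hk5
    interval_cases hc : s.card
    · left; rfl
    · exfalso; simp at hodd
    · right; left; rfl
    · exfalso
      have : ((3 : ℕ) : F) = 1 := by push_cast; linear_combination h11
      rw [this] at hodd
      exact one_ne_zero hodd
    · right; right; rfl
    · exfalso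
      have : ((5 : ℕ) : F) = 1 := by push_cast; linear_combination 2 * h11
      rw [this] at hodd
      exact one_ne_zero hodd
  rcases hcases with h0 | h0 | h0
  · exfalso
    rw [Finset.card_eq_zero] at h0
    rw [hsum, h0, Finset.sum_empty] at hw3
    exact hw3 rfl
  · exfalso
    obtain ⟨x, y, hxy, hs2⟩ := Finset.card_eq_two.1 h0
    have hne : p - q ≠ 0 := by
      intro h
      rw [sub_eq_zero.1 h] at hpq
      exact hpq rfl
    have hxy' : x - y ≠ 0 := sub_ne_zero.2 hxy
    have e := hrel g0 hg0 ((p - q) / (x - y)) (p - (p - q) / (x - y) * x) (div_ne_zero hne hxy')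
    rw [hsum (fun x' => g0 ((p - q) / (x - y) * x' + (p - (p - q) / (x - y) * x))), hs2,
      Finset.sum_pair hxy] at e
    have t1 : (p - q) / (x - y) * x + (p - (p - q) / (x - y) * x) = p := by ring
    have t2 : (p - q) / (x - y) * y + (p - (p - q) / (x - y) * x) = q := by
      field_simp
      ring
    rw [t1, t2] at e
    apply hpq
    linear_combination e - h2 (g0 q)
  · -- four points
    obtain ⟨x1, hx1⟩ := Finset.card_pos.1 (by omega : 0 < s.card)
    have h3 : (s.erase x1).card = 3 := by rw [Finset.card_erase_of_mem hx1, h0]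
    obtain ⟨x2, x3, x4, n23, n24, n34, hs3⟩ := Finset.card_eq_three.1 h3
    have hm2 : x2 ∈ s.erase x1 := by rw [hs3]; simp
    have hm3 : x3 ∈ s.erase x1 := by rw [hs3]; simp
    have hm4 : x4 ∈ s.erase x1 := by rw [hs3]; simp
    have n21 := Finset.ne_of_mem_erase hm2
    have n31 := Finset.ne_of_mem_erase hm3
    have n41 := Finset.ne_of_mem_erase hm4
    have hsumS : ∀ G : K → F, ∑ x ∈ s, G x = G x1 + G x2 + G x3 + G x4 := by
      intro G
      rw [← Finset.add_sum_erase s G hx1, hs3, Finset.sum_insert (by simp [n23, n24]),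
        Finset.sum_pair n34]
      ring
    have hrel4 : ∀ g ∈ P, ∀ a b : K,
        g (b + a * x1) + g (b + a * x2) + g (b + a * x3) + g (b + a * x4) = 0 := by
      intro g hg a b
      by_cases ha : a = 0
      · subst ha
        simp only [zero_mul, add_zero]
        linear_combination 2 * h2 (g b)
      · have e := hrel g hg a b ha
        rw [hsum (fun x => g (a * x + b)), hsumS] at e
        rw [add_comm b, add_comm b, add_comm b, add_comm b]
        exact e
    have hquad : ∀ g ∈ P, Quad g := by
      intro g hg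
      refine quad_of_van h2 g (van_of_rel 3 s h0 (fun _ => g) ?_ x1 hx1)
      intro a b
      rw [hsumS]
      exact hrel4 g hg a b
    have hS : x1 + x2 + x3 + x4 = 0 := by
      by_contra hne
      exact hpq (const_of_four h2 g0 (hquad g0 hg0) x1 x2 x3 x4 hne (hrel4 g0 hg0) p q)
    have e4 : x1 + (x1 + x2) + (x1 + x3) = x4 := by
      linear_combination hS + hK x1 - hK x4
    refine ⟨x1 + x2, x1 + x3, x1, ?_, ?_, ?_, ?_, ?_⟩
    · intro h
      apply n21
      linear_combination h - hK x1
    · intro h
      apply n31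
      linear_combination h - hK x1
    · intro h
      apply n23
      linear_combination h
    · rw [hsum, hsumS] at hw3
      unfold DD
      have e2 : x1 + (x1 + x2) = x2 := by linear_combination hK x1
      have e3 : x1 + (x1 + x3) = x3 := by linear_combination hK x1
      rw [e4, e2, e3]
      exact hw3
    · intro g hg a b
      have e := hrel4 g hg a (b + a * x1)
      unfold DD
      have t1 : b + a * x1 + a * x1 = b := by linear_combination a * hK x1
      have t2 : b + a * x1 + a * x2 = b + a * (x1 + x2) := by ring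
      have t3 : b + a * x1 + a * x3 = b + a * (x1 + x3) := by ring
      have t4 : b + a * x1 + a * x4 = b + a * (x1 + x2) + a * (x1 + x3) := by
        linear_combination (-a) * e4 + a * hK x1
      rw [t1, t2, t3, t4] at e
      exact e

end H79SO
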