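import Mathlib
import Pool.Agent.T6.H79.SO.Binary2

open Finset

namespace H79SO

variable {F K : Type} [Field F] [Field K]

/-- the elements `γ` such that all `Δ_u Δ_{γ u} g` vanish, a subgroup of the unit group -/
def GG [Fintype K] (h2 : ∀ c : F, c + c = 0) (hK : ∀ x : K, x + x = 0)
    (hev : ∃ m, Fintype.card K = 2 * m) (g : K → F) (hg : Quad g) : Subgroup Kˣ where
  carrier := {γ | ∀ u b, DD g u ((γ : K) * u) b = 0}
  mul_mem' := by
    intro γ δ hγ hδ u b
    have := mulClosed h2 hK FiniteField.pow_card hev g hg γ δ hγ hδ u b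
    rw [Units.val_mul]
    exact this
  one_mem' := by
    intro u b
    have e1 := h2 (g b)
    have e2 := h2 (g (b + u))
    have e3 : b + u + u = b := by linear_combination hK u
    rw [Units.val_one, one_mul]
    unfold DD
    rw [e3]
    linear_combination e1 + e2
  inv_mem' := by
    intro γ hγ u b
    have := hγ (((γ⁻¹ : Kˣ) : K) * u) b
    rw [← mul_assoc, Units.mul_inv, one_mul] at this
    rw [DD_comm]
    exact this

theorem mem_GG [Fintype K] (h2 : ∀ c : F, c + c = 0) (hK : ∀ x : K, x + x = 0)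
    (hev : ∃ m, Fintype.card K = 2 * m) (g : K → F) (hg : Quad g) (γ : Kˣ) :
    γ ∈ GG h2 hK hev g hg ↔ ∀ u b, DD g u ((γ : K) * u) b = 0 := Iff.rfl

/-- over a field with two elements, `k' ≤ 4` if `k ≤ 5` -/
theorem binary [Fintype K] [DecidableEq K] [DecidableEq F] (hF : ∀ c : F, c = 0 ∨ c = 1)
    (h2 : ∀ c : F, c + c = 0) (hK : ∀ x : K, x + x = 0) (hQ : (Fintype.card K : F) = 0)
    (hev : ∃ m, Fintype.card K = 2 * m)
    (k : ℕ) (hk5 : k ≤ 5) (P : Submodule F (K → F)) (hP : AffInv P) (htop : P ≠ ⊤)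
    (hk : LocalChar k P) : ∃ k' ≤ 4, SingleOrbit k' P := by
  by_cases hbot : P = ⊥
  · refine ⟨1, by norm_num, ⟨fun _ => 0, {0}, ?_⟩, fun f => ?_⟩
    · intro h
      have : (fun _ => 1 : Fin 1 → F) ∈ ({0} : Set (Fin 1 → F)) := by rw [h]; trivial
      rw [Set.mem_singleton_iff] at this
      exact one_ne_zero (congrFun this 0)
    · rw [hbot, Submodule.mem_bot]
      constructor
      · rintro rfl a b _
        show (fun i => (0 : K → F) _) ∈ ({0} : Set (Fin 1 → F))
        rw [Set.mem_singleton_iff]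
        rfl
      · intro h
        funext b
        have h1 := h 1 b one_ne_zero
        have h3 : (fun _ : Fin 1 => f (1 * 0 + b)) ∈ ({0} : Set (Fin 1 → F)) := h1
        rw [Set.mem_singleton_iff] at h3
        have h4 := congrFun h3 0
        simpa using h4
  by_cases hconst : ∀ g ∈ P, ∀ x y : K, g x = g y
  · -- the constants
    have hone : ∀ c : F, (fun _ => c : K → F) ∈ P := by
      obtain ⟨g, hg, hg0⟩ := (Submodule.ne_bot_iff P).1 hbot
      have : ∃ x, g x ≠ 0 := by
        by_contra hcon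
        push Not at hcon
        exact hg0 (funext hcon)
      obtain ⟨x, hx⟩ := this
      intro c
      have h1 := P.smul_mem (c / g x) hg
      have h3 : (c / g x) • g = fun _ => c := by
        funext y
        rw [Pi.smul_apply, smul_eq_mul, hconst g hg y x, div_mul_cancel₀ _ hx]
      rwa [h3] at h1
    refine ⟨2, by norm_num, ⟨![0, 1], {v | v 0 = v 1}, ?_⟩, fun f => ?_⟩
    · intro h
      have : (![1, 0] : Fin 2 → F) ∈ {v : Fin 2 → F | v 0 = v 1} := by rw [h]; trivial
      simp at this
    · constructor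
      · intro hf a b _
        exact hconst f hf _ _
      · intro h
        have : f = fun _ => f 0 := by
          funext x
          by_cases hx : x = 0
          · rw [hx]
          · have h1 := h x 0 hx
            have h3 : f (x * 0 + 0) = f (x * 1 + 0) := h1
            simp only [mul_zero, mul_one, add_zero] at h3
            exact h3.symm
        rw [this]
        exact hone _
  push Not at hconst
  have hnc : ∃ g ∈ P, ∃ x y : K, g x ≠ g y := hconst
  have hsep := sep_two hF h2 hK hQ k hk5 P hP hk hnc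
  have hf : ∃ f, f ∉ P := by
    by_contra hcon
    push Not at hcon
    exact htop (eq_top_iff.2 fun f _ => hcon f)
  -- from a relation with ratio `γ ≠ 0, 1` for all `a` to vanishing third differences
  have hquad : ∀ (g : K → F) (γ : K), γ ≠ 0 → γ ≠ 1 → (∀ a b : K, DD g a (γ * a) b = 0) →
      Quad g := by
    intro g γ hγ0 hγ1 hr
    have h1γ : (1 : K) + γ ≠ 0 := by
      intro h
      apply hγ1
      linear_combination h - hK 1
    have hcard : ({0, 1, γ, 1 + γ} : Finset K).card = 3 + 1 := by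
      rw [Finset.card_insert_of_notMem, Finset.card_insert_of_notMem,
        Finset.card_insert_of_notMem, Finset.card_singleton]
      · simp
      · simp only [Finset.mem_insert, Finset.mem_singleton, not_or]
        refine ⟨hγ1.symm, ?_⟩
        intro h
        apply hγ0
        linear_combination -h
      · simp only [Finset.mem_insert, Finset.mem_singleton, not_or]
        exact ⟨zero_ne_one, hγ0.symm, h1γ.symm⟩
    refine quad_of_van h2 g (van_of_rel 3 {0, 1, γ, 1 + γ} hcard (fun _ => g) ?_ 0 (by simp))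
    intro a b
    have e := hr a b
    unfold DD at e
    rw [Finset.sum_insert, Finset.sum_insert, Finset.sum_insert, Finset.sum_singleton]
    · have t1 : b + a * 0 = b := by ring
      have t2 : b + a * 1 = b + a := by ring
      have t3 : b + a * γ = b + γ * a := by ring
      have t4 : b + a * (1 + γ) = b + a + γ * a := by ring
      rw [t1, t2, t3, t4]
      linear_combination e
    · simp
    · simp only [Finset.mem_insert, Finset.mem_singleton, not_or]
      refine ⟨hγ1.symm, ?_⟩
      intro h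
      apply hγ0
      linear_combination -h
    · simp only [Finset.mem_insert, Finset.mem_singleton, not_or]
      exact ⟨zero_ne_one, hγ0.symm, h1γ.symm⟩
  -- the ratio of a separating word
  have hratio : ∀ f ∉ P, ∃ (γ : Kˣ) (u b : K), (γ : K) ≠ 1 ∧ DD f u ((γ : K) * u) b ≠ 0 ∧
      ∀ g ∈ P, ∀ a b : K, DD g a ((γ : K) * a) b = 0 := by
    intro f hf
    obtain ⟨u, v, b, hu, hv, huv, h3, h4⟩ := hsep f hf
    refine ⟨Units.mk0 (v / u) (div_ne_zero hv hu), u, b, ?_, ?_, ?_⟩
    · rw [Units.val_mk0]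
      intro h
      rw [div_eq_one_iff_eq hu] at h
      exact huv h.symm
    · rw [Units.val_mk0, div_mul_cancel₀ _ hu]
      exact h3
    · intro g hg a b
      have := h4 g hg (a / u) b
      rw [Units.val_mk0]
      have t1 : a / u * u = a := div_mul_cancel₀ _ hu
      have t2 : a / u * v = v / u * a := by ring
      rw [t1, t2] at this
      exact this
  obtain ⟨f0, hf0⟩ := hf
  obtain ⟨γ1, _, _, hγ1, _, hγ1P⟩ := hratio f0 hf0
  have hPq : ∀ g ∈ P, Quad g := fun g hg => hquad g γ1 γ1.ne_zero hγ1 (hγ1P g hg)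
  let Γ : Subgroup Kˣ := ⨅ g : P, GG h2 hK hev g.1 (hPq g.1 g.2)
  have hΓ : ∀ γ : Kˣ, γ ∈ Γ ↔ ∀ g ∈ P, ∀ u b, DD g u ((γ : K) * u) b = 0 := by
    intro γ
    simp only [Γ, Subgroup.mem_iInf, mem_GG]
    exact ⟨fun h g hg => h ⟨g, hg⟩, fun h g => h g.1 g.2⟩
  obtain ⟨γ0, hγ0⟩ := IsCyclic.exists_generator (α := Γ)
  have hgen : ∀ γ ∈ Γ, γ ∈ Subgroup.zpowers (γ0 : Kˣ) := by
    intro γ hγ
    obtain ⟨n, hn⟩ := hγ0 ⟨γ, hγ⟩
    exact ⟨n, by simpa using congrArg Subtype.val hn⟩
  have hγ01 : ((γ0 : Kˣ) : K) ≠ 1 := by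
    intro h
    have h1 : (γ0 : Kˣ) = 1 := Units.ext h
    have h3 := hgen γ1 ((hΓ γ1).2 hγ1P)
    rw [h1, Subgroup.zpowers_one_eq_bot, Subgroup.mem_bot] at h3
    apply hγ1
    rw [h3, Units.val_one]
  refine ⟨4, le_refl 4, ⟨![0, 1, ((γ0 : Kˣ) : K), 1 + ((γ0 : Kˣ) : K)],
    {v | v 0 + v 1 + v 2 + v 3 = 0}, ?_⟩, fun f => ?_⟩
  · intro h
    have : (![1, 0, 0, 0] : Fin 4 → F) ∈ {v : Fin 4 → F | v 0 + v 1 + v 2 + v 3 = 0} := by
      rw [h]; trivial
    simp at this
  · have hconv : ∀ a b : K, (f (a * 0 + b) + f (a * 1 + b) + f (a * ((γ0 : Kˣ) : K) + b) +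
        f (a * (1 + ((γ0 : Kˣ) : K)) + b) = 0) ↔ DD f a (((γ0 : Kˣ) : K) * a) b = 0 := by
      intro a b
      unfold DD
      have t1 : a * 0 + b = b := by ring
      have t2 : a * 1 + b = b + a := by ring
      have t3 : a * ((γ0 : Kˣ) : K) + b = b + ((γ0 : Kˣ) : K) * a := by ring
      have t4 : a * (1 + ((γ0 : Kˣ) : K)) + b = b + a + ((γ0 : Kˣ) : K) * a := by ring
      rw [t1, t2, t3, t4]
    constructor
    · intro hf a b _
      show f (a * 0 + b) + f (a * 1 + b) + f (a * ((γ0 : Kˣ) : K) + b) +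
        f (a * (1 + ((γ0 : Kˣ) : K)) + b) = 0
      rw [hconv]
      exact (hΓ γ0).1 γ0.2 f hf a b
    · intro h
      have h1 : ∀ a b : K, DD f a (((γ0 : Kˣ) : K) * a) b = 0 := by
        intro a b
        by_cases ha : a = 0
        · subst ha
          unfold DD
          simp only [mul_zero, add_zero]
          linear_combination 2 * h2 (f b)
        · rw [← hconv]
          exact h a b ha
      have hfq := hquad f _ (γ0 : Kˣ).ne_zero hγ01 h1
      have hle : Γ ≤ GG h2 hK hev f hfq := by
        intro γ hγ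
        have h3 := hgen γ hγ
        have h4 : Subgroup.zpowers (γ0 : Kˣ) ≤ GG h2 hK hev f hfq := by
          rw [Subgroup.zpowers_le]
          exact h1
        exact h4 h3
      by_contra hfP
      obtain ⟨γ, u, b, _, h5, h6⟩ := hratio f hfP
      exact h5 (hle ((hΓ γ).2 h6) u b)

end H79SO
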