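import Mathlib
import Pool.Agent.T6.H79.SO.Defs

open Finset

namespace H79SO

variable {F K : Type} [Field F] [Field K] [Fintype K] [DecidableEq K]

/-- pairing of a word with a function -/
def pair (w f : K → F) : F := ∑ x, w x * f x

/-- a space cut out by words of support at most `k` has a `k`-local characterization -/
theorem local_of_words [DecidableEq F] (k : ℕ) (P : Submodule F (K → F)) (W : Set (K → F))
    (hP : ∀ f, f ∈ P ↔ ∀ w ∈ W, pair w f = 0)
    (hk : ∀ w ∈ W, (univ.filter (fun x => w x ≠ 0)).card ≤ k) : LocalChar k P := by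
  refine ⟨{C | ∀ f ∈ P, Sat f C}, fun f => ⟨fun hf C hC => hC f hf, fun hf => ?_⟩⟩
  rw [hP]
  intro w hw
  by_cases hw0 : ∀ x, w x = 0
  · simp [pair, hw0]
  push Not at hw0
  obtain ⟨x0, hx0⟩ := hw0
  set s := univ.filter (fun x => w x ≠ 0) with hs
  have hcard : Fintype.card s ≤ Fintype.card (Fin k) := by
    rw [Fintype.card_fin, Fintype.card_coe]
    exact hk w hw
  obtain ⟨ι⟩ := Function.Embedding.nonempty_of_card_le hcard
  let pt : Fin k → K := Function.extend ι (fun x : s => (x : K)) (fun _ => 0)
  have hpt : ∀ x : s, pt (ι x) = x := fun x => ι.injective.extend_apply _ _ x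
  have hsum : ∀ g : K → F, pair w g = ∑ x : s, w x * g (pt (ι x)) := by
    intro g
    simp only [hpt, pair]
    rw [Finset.sum_coe_sort s (fun x => w x * g x)]
    symm
    apply Finset.sum_subset (Finset.subset_univ _)
    intro x _ hx
    have : w x = 0 := by
      by_contra h
      exact hx (by simp [hs, h])
    simp [this]
  let C : Constr F K k :=
    { pt := pt
      S := {v | ∑ x : s, w x * v (ι x) = 0}
      proper := by
        intro hS
        have : (Pi.single (ι ⟨x0, by simp [hs, hx0]⟩) (1 : F) : Fin k → F) ∈
            {v : Fin k → F | ∑ x : s, w x * v (ι x) = 0} := by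
          rw [hS]; trivial
        simp only [Set.mem_setOf_eq] at this
        rw [Finset.sum_eq_single (⟨x0, by simp [hs, hx0]⟩ : s)] at this
        · simp [hx0] at this
        · intro b _ hb
          rw [Pi.single_eq_of_ne, mul_zero]
          intro h
          exact hb (ι.injective h)
        · intro h
          exact absurd (Finset.mem_univ _) h }
  have hC : C ∈ {C : Constr F K k | ∀ f ∈ P, Sat f C} := by
    intro g hg
    have := (hP g).1 hg w hw
    rw [hsum] at this
    exact this
  have := hf C hC
  rw [hsum]
  exact this

end H79SO
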