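import Mathlib
import Pool.Agent.T6.H79.SO.Words

open Finset

namespace H79SO

variable {F K : Type} [Field F] [Field K] [Fintype K] [DecidableEq K]

/-- the word `∑ s (δ_{u+v} - δ_u - δ_v)` -/
def wd : List (F × K × K) → K → F
  | [] => fun _ => 0
  | t :: L => fun x => t.1 * ((if x = t.2.1 + t.2.2 then 1 else 0) -
      (if x = t.2.1 then 1 else 0) - (if x = t.2.2 then 1 else 0)) + wd L x

/-- its value on a function -/
def ev {M : Type} [AddCommGroup M] [Module F M] (φ : K → M) : List (F × K × K) → M
  | [] => 0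
  | t :: L => t.1 • (φ (t.2.1 + t.2.2) - φ t.2.1 - φ t.2.2) + ev φ L

theorem sum_wd {M : Type} [AddCommGroup M] [Module F M] (φ : K → M) (L : List (F × K × K)) :
    ∑ x, wd L x • φ x = ev φ L := by
  induction L with
  | nil => simp [wd, ev]
  | cons t L ih =>
    simp only [wd, ev, add_smul, Finset.sum_add_distrib, ih]
    congr 1
    simp only [mul_smul, sub_smul, ← Finset.smul_sum, Finset.sum_sub_distrib, ite_smul, one_smul,
      zero_smul, Finset.sum_ite_eq', Finset.mem_univ, if_true]

theorem supp_wd [DecidableEq F] (L : List (F × K × K)) :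
    (univ.filter (fun x => wd L x ≠ 0)).card ≤ 3 * L.length := by
  induction L with
  | nil => simp [wd]
  | cons t L ih =>
    have : (univ.filter (fun x => wd (t :: L) x ≠ 0)) ⊆
        ({t.2.1 + t.2.2, t.2.1, t.2.2} : Finset K) ∪ (univ.filter (fun x => wd L x ≠ 0)) := by
      intro x hx
      simp only [Finset.mem_filter, Finset.mem_univ, true_and, Finset.mem_union,
        Finset.mem_insert, Finset.mem_singleton] at hx ⊢
      by_contra hcon
      push Not at hcon
      obtain ⟨⟨h1, h2, h3⟩, h4⟩ := hcon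
      apply hx
      simp [wd, h1, h2, h3, h4]
    refine (Finset.card_le_card this).trans ((Finset.card_union_le _ _).trans ?_)
    have h3 : ({t.2.1 + t.2.2, t.2.1, t.2.2} : Finset K).card ≤ 3 := Finset.card_le_three
    rw [List.length_cons]
    omega

/-- sum of the signs -/
def sg : List (F × K × K) → F
  | [] => 0
  | t :: L => t.1 + sg L

theorem ev_const {M : Type} [AddCommGroup M] [Module F M] (c : M) (L : List (F × K × K)) :
    ev (fun _ => c) L = -(sg L • c) := by
  induction L with
  | nil => simp [ev, sg]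
  | cons t L ih => simp only [ev, sg, ih, add_smul, sub_self, zero_sub, smul_neg]; abel

theorem ev_add {M : Type} [AddCommGroup M] [Module F M] (φ : K → M)
    (h : ∀ x y, φ (x + y) = φ x + φ y) (L : List (F × K × K)) : ev φ L = 0 := by
  induction L with
  | nil => simp [ev]
  | cons t L ih => simp [ev, ih, h]

/-- one more pair of factors -/
def step (γ δ : K) : List (F × K × K) → List (F × K × K)
  | [] => []
  | t :: L => (t.1, t.2.1 * (γ * δ), t.2.2) :: (t.1, t.2.1, t.2.2 * (γ * δ)) ::
      (-t.1, t.2.1 * γ, t.2.2 * δ) :: (-t.1, t.2.1 * δ, t.2.2 * γ) :: step γ δ L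

theorem length_step (γ δ : K) (L : List (F × K × K)) : (step γ δ L).length = 4 * L.length := by
  induction L with
  | nil => simp [step]
  | cons t L ih => simp only [step, List.length_cons, ih]; ring

theorem sg_step (γ δ : K) (L : List (F × K × K)) : sg (step γ δ L) = 0 := by
  induction L with
  | nil => simp [step, sg]
  | cons t L ih => simp only [step, sg, ih]; ring

variable [Algebra F K]

theorem ev_step (γ δ : K) (L : List (F × K × K)) (σ τ : K →+* K) :
    ev (fun x => σ x * τ x) (step γ δ L) =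
      ev (fun x => σ x * τ x) L * ((σ γ - τ γ) * (σ δ - τ δ)) := by
  induction L with
  | nil => simp [step, ev]
  | cons t L ih =>
    simp only [step, ev, ih, map_add, map_mul, Algebra.smul_def, map_neg]
    ring

theorem exists_list {ι : Type} [DecidableEq ι] (γ δ : ι → K) (C : Finset ι) (hC : C.Nonempty) :
    ∃ L : List (F × K × K), L.length = 2 * 4 ^ (C.card - 1) ∧ sg L = 0 ∧
      ∀ σ τ : K →+* K, ev (fun x => σ x * τ x) L =
        ∏ m ∈ C, ((σ (γ m) - τ (γ m)) * (σ (δ m) - τ (δ m))) := by
  induction hC using Finset.Nonempty.cons_induction with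
  | singleton a =>
    refine ⟨[(1, 1, γ a * δ a), (-1, γ a, δ a)], by simp, by simp [sg], fun σ τ => ?_⟩
    simp only [ev, map_add, map_mul, Algebra.smul_def, map_neg, Finset.prod_singleton, map_one]
    ring
  | cons a s h hs ih =>
    obtain ⟨L, h1, h2, h3⟩ := ih
    refine ⟨step (γ a) (δ a) L, ?_, sg_step _ _ _, fun σ τ => ?_⟩
    · rw [length_step, h1, Finset.card_cons]
      have : s.card ≠ 0 := by
        rw [Ne, Finset.card_eq_zero]
        exact Finset.nonempty_iff_ne_empty.1 hs
      obtain ⟨r, hr⟩ := Nat.exists_eq_succ_of_ne_zero this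
      rw [hr]
      simp only [Nat.succ_eq_add_one, Nat.add_sub_cancel]
      ring
    · rw [ev_step, h3, Finset.prod_cons]
      ring

/-- The word of a nonempty set of pairs of elements. -/
theorem exists_word [DecidableEq F] {ι : Type} [DecidableEq ι] (γ δ : ι → K) (C : Finset ι)
    (hC : C.Nonempty) :
    ∃ w : K → F, (univ.filter (fun x => w x ≠ 0)).card ≤ 6 * 4 ^ (C.card - 1) ∧
      (∀ c : K, ∑ x, w x • c = 0) ∧ (∀ σ : K →+* K, ∑ x, w x • σ x = 0) ∧
      ∀ σ τ : K →+* K, ∑ x, w x • (σ x * τ x) =
        ∏ m ∈ C, ((σ (γ m) - τ (γ m)) * (σ (δ m) - τ (δ m))) := by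
  obtain ⟨L, h1, h2, h3⟩ := exists_list (F := F) γ δ C hC
  refine ⟨wd L, ?_, fun c => ?_, fun σ => ?_, fun σ τ => ?_⟩
  · refine (supp_wd L).trans ?_
    rw [h1]; ring_nf; exact le_refl _
  · rw [sum_wd (fun _ => c) L, ev_const, h2]; simp
  · rw [sum_wd (fun x => σ x) L, ev_add]; intro x y; exact map_add σ x y
  · rw [sum_wd (fun x => σ x * τ x) L, h3]

end H79SO
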