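import Mathlib
import Pool.Agent.T6.H79.SO.Lists

open Finset

namespace H79SO

variable {F K : Type} [Field F] [Field K] [Fintype K] [DecidableEq K]

/-- functions all of whose affine images are orthogonal to the words `w i` -/
def space {ι : Type} (w : ι → K → F) : Submodule F (K → F) where
  carrier := {f | ∀ i, ∀ a b : K, a ≠ 0 → ∑ x, w i x * f (a * x + b) = 0}
  add_mem' := by
    intro f g hf hg i a b ha
    have h1 := hf i a b ha
    have h2 := hg i a b ha
    simp only [Pi.add_apply, mul_add, Finset.sum_add_distrib, h1, h2, add_zero]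
  zero_mem' := by intro i a b _; simp
  smul_mem' := by
    intro c f hf i a b ha
    have h1 := hf i a b ha
    simp only [Pi.smul_apply, smul_eq_mul]
    calc ∑ x, w i x * (c * f (a * x + b)) = c * ∑ x, w i x * f (a * x + b) := by
          rw [Finset.mul_sum]; exact Finset.sum_congr rfl fun x _ => by ring
      _ = 0 := by rw [h1, mul_zero]

theorem mem_space {ι : Type} (w : ι → K → F) (f : K → F) : f ∈ space w ↔
    ∀ i, ∀ a b : K, a ≠ 0 → ∑ x, w i x * f (a * x + b) = 0 := Iff.rfl

theorem space_inv {ι : Type} (w : ι → K → F) : AffInv (space w) := by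
  intro f hf a b ha i a' b' ha'
  have := hf i (a * a') (a * b' + b) (mul_ne_zero ha ha')
  rw [← this]
  refine Finset.sum_congr rfl fun x _ => ?_
  congr 2
  ring

theorem space_local [DecidableEq F] {ι : Type} (w : ι → K → F) (k : ℕ)
    (hk : ∀ i, (univ.filter (fun x => w i x ≠ 0)).card ≤ k) : LocalChar k (space w) := by
  refine local_of_words k (space w)
    {v | ∃ i, ∃ a b : K, a ≠ 0 ∧ v = fun y => w i (a⁻¹ * (y - b))} ?_ ?_
  · intro f
    rw [mem_space]
    have key : ∀ i, ∀ a b : K, a ≠ 0 → ∑ x, w i x * f (a * x + b) =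
        pair (fun y => w i (a⁻¹ * (y - b))) f := by
      intro i a b ha
      unfold pair
      refine Finset.sum_bij (fun x _ => a * x + b) (fun _ _ => Finset.mem_univ _) ?_ ?_ ?_
      · intro x _ y _ hxy
        have := add_right_cancel hxy
        exact mul_left_cancel₀ ha this
      · intro y _
        exact ⟨a⁻¹ * (y - b), Finset.mem_univ _, by field_simp; ring⟩
      · intro x _
        congr 2
        field_simp
        ring
    constructor
    · rintro h v ⟨i, a, b, ha, rfl⟩
      rw [← key i a b ha]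
      exact h i a b ha
    · intro h i a b ha
      rw [key i a b ha]
      exact h _ ⟨i, a, b, ha, rfl⟩
  · rintro v ⟨i, a, b, ha, rfl⟩
    refine le_trans (Finset.card_le_card_of_injOn (fun y => a⁻¹ * (y - b)) ?_ ?_) (hk i)
    · intro y hy
      simpa using hy
    · intro y _ z _ hyz
      have := mul_left_cancel₀ (inv_ne_zero ha) hyz
      simpa using this

variable [Algebra F K]

/-- all affine images of `φ` are orthogonal to the words -/
def InP {ι : Type} (w : ι → K → F) (φ : K → K) : Prop :=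
  ∀ i, ∀ a b : K, a ≠ 0 → ∑ x, w i x • φ (a * x + b) = 0

theorem trace_pair (w : K → F) (φ : K → K) (β : K) :
    ∑ x, w x * Algebra.trace F K (β * φ x) = Algebra.trace F K (β * ∑ x, w x • φ x) := by
  rw [Finset.mul_sum, map_sum]
  refine Finset.sum_congr rfl fun x _ => ?_
  rw [mul_smul_comm, map_smul, smul_eq_mul]

theorem mem_of_InP {ι : Type} (w : ι → K → F) (φ : K → K) (h : InP w φ) (β : K) :
    (fun x => Algebra.trace F K (β * φ x)) ∈ space w := by
  intro i a b ha
  have := trace_pair (w i) (fun x => φ (a * x + b)) β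
  rw [this, h i a b ha, mul_zero, map_zero]

theorem expand {κ : Type} [Fintype κ] (h : κ → F) (α : κ → K) (σ τ : K →+* K) (a b : K) :
    ∑ i, h i • (σ (a * α i + b) * τ (a * α i + b)) =
      (σ a * τ a) * ∑ i, h i • (σ (α i) * τ (α i)) + (σ a * τ b) * ∑ i, h i • σ (α i) +
      (σ b * τ a) * ∑ i, h i • τ (α i) + (σ b * τ b) * ∑ i, h i • (1 : K) := by
  simp only [Finset.mul_sum, ← Finset.sum_add_distrib]
  refine Finset.sum_congr rfl fun i _ => ?_
  simp only [map_add, map_mul, Algebra.smul_def]
  ring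

theorem InP_prod {ι : Type} (w : ι → K → F) (σ τ : K →+* K)
    (h0 : ∀ i, ∀ c : K, ∑ x, w i x • c = 0) (h1 : ∀ i, ∀ σ : K →+* K, ∑ x, w i x • σ x = 0)
    (h2 : ∀ i, ∑ x, w i x • (σ x * τ x) = 0) : InP w (fun x => σ x * τ x) := by
  intro i a b _
  have := expand (w i) (fun x => x) σ τ a b
  simp only at this ⊢
  rw [this, h2 i, h1 i σ, h1 i τ, h0 i 1]
  simp

theorem InP_hom {ι : Type} (w : ι → K → F) (σ : K →+* K)
    (h0 : ∀ i, ∀ c : K, ∑ x, w i x • c = 0) (h1 : ∀ i, ∀ σ : K →+* K, ∑ x, w i x • σ x = 0) :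
    InP w (fun x => σ x) := by
  intro i a b _
  simp only [map_add, map_mul, smul_add, Finset.sum_add_distrib, h0]
  have : ∑ x, w i x • (σ a * σ x) = σ a * ∑ x, w i x • σ x := by
    rw [Finset.mul_sum]
    exact Finset.sum_congr rfl fun x _ => by rw [mul_smul_comm]
  rw [this, h1]; simp

theorem InP_const {ι : Type} (w : ι → K → F) (c : K)
    (h0 : ∀ i, ∀ c : K, ∑ x, w i x • c = 0) : InP w (fun _ => c) := by
  intro i a b _
  exact h0 i c

theorem exists_trace_ne [FiniteDimensional F K] [Algebra.IsSeparable F K] (x : K) (hx : x ≠ 0) :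
    ∃ β : K, Algebra.trace F K (β * x) ≠ 0 := by
  by_contra hcon
  push Not at hcon
  apply Algebra.trace_ne_zero F K
  ext y
  have := hcon (y * x⁻¹)
  rw [mul_assoc, inv_mul_cancel₀ hx, mul_one] at this
  rw [this]; rfl

theorem space_ne_top [FiniteDimensional F K] [Algebra.IsSeparable F K]
    {ι : Type} (w : ι → K → F) (φ : K → K) (i : ι) (hi : ∑ x, w i x • φ x ≠ 0) :
    space w ≠ ⊤ := by
  intro htop
  obtain ⟨β, hβ⟩ := exists_trace_ne (F := F) _ hi
  have hmem : (fun x => Algebra.trace F K (β * φ x)) ∈ space w := by rw [htop]; trivial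
  have h1 := hmem i 1 0 one_ne_zero
  simp only [one_mul, add_zero] at h1
  have h2 := trace_pair (w i) φ β
  rw [h2] at h1
  exact hβ h1

/-- The lower bound for single orbit characterizations. -/
theorem lower [FiniteDimensional F K] [Algebra.IsSeparable F K]
    {ι κ : Type} [Fintype κ] (w : ι → K → F) (σ τ : κ → (K →+* K))
    (h0 : ∀ i, ∀ c : K, ∑ x, w i x • c = 0) (h1 : ∀ i, ∀ σ : K →+* K, ∑ x, w i x • σ x = 0)
    (hoff : ∀ s t : κ, s ≠ t → ∀ i, ∑ x, w i x • (σ s x * τ t x) = 0)
    (hdiag : ∀ s : κ, ∃ i, ∑ x, w i x • (σ s x * τ s x) ≠ 0)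
    (k : ℕ) (hk : SingleOrbit k (space w)) : Fintype.card κ ≤ k := by
  obtain ⟨C, hC⟩ := hk
  set V : Submodule F (Fin k → F) :=
    (space w).map (LinearMap.funLeft F F C.pt) with hV
  have hVS : ∀ v ∈ V, v ∈ C.S := by
    rintro v ⟨f, hf, rfl⟩
    have h : (fun i => f (1 * C.pt i + 0)) ∈ C.S := (hC f).1 hf 1 0 one_ne_zero
    simp only [one_mul, add_zero] at h
    exact h
  -- functionals on V
  have hE : ∀ φ : K → K, InP w φ → ∀ h : Fin k → F, (∀ v ∈ V, ∑ m, h m * v m = 0) →
      ∑ m, h m • φ (C.pt m) = 0 := by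
    intro φ hφ h hh
    by_contra hne
    obtain ⟨β, hβ⟩ := exists_trace_ne (F := F) _ hne
    apply hβ
    rw [Finset.mul_sum, map_sum]
    refine Eq.trans ?_ (hh _ ⟨_, mem_of_InP w φ hφ β, rfl⟩)
    refine Finset.sum_congr rfl fun m _ => ?_
    rw [mul_smul_comm, map_smul, smul_eq_mul]
    rfl
  have hrow : ∀ s : κ, ∃ h : Fin k → F, (∀ v ∈ V, ∑ m, h m * v m = 0) ∧
      ∑ m, h m • (σ s (C.pt m) * τ s (C.pt m)) ≠ 0 := by
    intro s
    obtain ⟨i, hi⟩ := hdiag s
    obtain ⟨β, hβ⟩ := exists_trace_ne (F := F) _ hi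
    have hnot : (fun x => Algebra.trace F K (β * (σ s x * τ s x))) ∉ space w := by
      intro hmem
      have := hmem i 1 0 one_ne_zero
      simp only [one_mul, add_zero] at this
      have h2 := trace_pair (w i) (fun x => σ s x * τ s x) β
      rw [h2] at this
      exact hβ this
    rw [hC] at hnot
    push Not at hnot
    obtain ⟨a, b, ha, hab⟩ := hnot
    have hnV : (fun m => Algebra.trace F K (β * (σ s (a * C.pt m + b) * τ s (a * C.pt m + b)))) ∉ V := by
      intro hmem
      exact hab (hVS _ hmem)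
    obtain ⟨ψ, hψ1, hψ2⟩ := Submodule.exists_le_ker_of_notMem hnV
    refine ⟨fun m => ψ (fun j => if m = j then 1 else 0), ?_, ?_⟩
    · intro v hv
      have h3 : ψ v = 0 := hψ2 hv
      rw [LinearMap.pi_apply_eq_sum_univ ψ v] at h3
      refine Eq.trans ?_ h3
      refine Finset.sum_congr rfl fun m _ => ?_
      rw [smul_eq_mul, mul_comm]
    · intro hzero
      apply hψ1
      rw [LinearMap.pi_apply_eq_sum_univ ψ]
      set h : Fin k → F := fun m => ψ (fun j => if m = j then 1 else 0) with hh
      have hhV : ∀ v ∈ V, ∑ m, h m * v m = 0 := by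
        intro v hv
        have h3 : ψ v = 0 := hψ2 hv
        rw [LinearMap.pi_apply_eq_sum_univ ψ v] at h3
        refine Eq.trans ?_ h3
        refine Finset.sum_congr rfl fun m _ => ?_
        rw [smul_eq_mul, mul_comm]
      have h4 : ∑ m, h m • (σ s (a * C.pt m + b) * τ s (a * C.pt m + b)) = 0 := by
        rw [expand h C.pt (σ s) (τ s) a b, hzero,
          hE (fun x => σ s x) (InP_hom w _ h0 h1) h hhV,
          hE (fun x => τ s x) (InP_hom w _ h0 h1) h hhV,
          hE (fun _ => 1) (InP_const w 1 h0) h hhV]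
        simp
      calc ∑ m, (Algebra.trace F K (β * (σ s (a * C.pt m + b) * τ s (a * C.pt m + b)))) • h m
          = Algebra.trace F K (β * ∑ m, h m • (σ s (a * C.pt m + b) * τ s (a * C.pt m + b))) := by
            rw [Finset.mul_sum, map_sum]
            refine Finset.sum_congr rfl fun m _ => ?_
            rw [mul_smul_comm, map_smul, smul_eq_mul, smul_eq_mul, mul_comm]
        _ = 0 := by rw [h4, mul_zero, map_zero]
  choose h hh1 hh2 using hrow
  have hlin : LinearIndependent K (fun s : κ => fun m : Fin k => h s m • σ s (C.pt m)) := by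
    classical
    rw [Fintype.linearIndependent_iff]
    intro g hg s
    have h5 : ∑ m, (∑ t, g t * (h t m • σ t (C.pt m))) * τ s (C.pt m) = 0 := by
      refine Finset.sum_eq_zero fun m _ => ?_
      have := congrFun hg m
      simp only [Finset.sum_apply, Pi.smul_apply, smul_eq_mul, Pi.zero_apply] at this
      rw [this, zero_mul]
    have h6 : ∑ m, (∑ t, g t * (h t m • σ t (C.pt m))) * τ s (C.pt m) =
        ∑ t, g t * ∑ m, h t m • (σ t (C.pt m) * τ s (C.pt m)) := by
      simp only [Finset.sum_mul, Finset.mul_sum]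
      rw [Finset.sum_comm]
      refine Finset.sum_congr rfl fun t _ => Finset.sum_congr rfl fun m _ => ?_
      simp only [Algebra.smul_def]
      ring
    rw [h6, Finset.sum_eq_single s] at h5
    · exact (mul_eq_zero.1 h5).resolve_right (hh2 s)
    · intro t _ hts
      rw [hE (fun x => σ t x * τ s x)
        (InP_prod w (σ t) (τ s) h0 h1 (hoff t s hts)) (h t) (hh1 t), mul_zero]
    · intro hs
      exact absurd (Finset.mem_univ _) hs
  have := hlin.fintype_card_le_finrank
  simpa using this

end H79SO
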