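import Mathlib
import Pool.Agent.T6.H79.SO.Lower

open Finset

namespace H79SO

/-- an element of `K` of the subfield of degree `a`, not in the prime field -/
theorem exists_elt {K : Type} [Field K] [Fintype K] (p : ℕ) [hp : Fact p.Prime] (N a : ℕ)
    (hN : Fintype.card K = p ^ N) (ha : 2 ≤ a) (hN0 : N ≠ 0) (hd : a ∣ N) :
    ∃ γ : K, γ ^ (p ^ a) = γ ∧ γ ^ p ≠ γ := by
  classical
  obtain ⟨g, hg⟩ := IsCyclic.exists_generator (α := Kˣ)
  have hord : orderOf g = p ^ N - 1 := by
    rw [orderOf_eq_card_of_forall_mem_zpowers hg, Nat.card_eq_fintype_card, Fintype.card_units, hN]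
  obtain ⟨c, hc⟩ := hd
  have hdvd : p ^ a - 1 ∣ p ^ N - 1 := by
    have := Nat.sub_dvd_pow_sub_pow (p ^ a) 1 c
    rwa [one_pow, ← pow_mul, ← hc] at this
  have hp2 := hp.out.two_le
  have hpa : p < p ^ a := by
    calc p = p ^ 1 := (pow_one p).symm
      _ < p ^ a := Nat.pow_lt_pow_right hp2 (by omega)
  have hpN : 1 < p ^ N := Nat.one_lt_pow hN0 hp2
  obtain ⟨e, he⟩ := hdvd
  have hepos : e ≠ 0 := by
    rintro rfl
    omega
  have hu : orderOf (g ^ e) = p ^ a - 1 := by
    rw [orderOf_pow_of_dvd hepos (by rw [hord, he]; exact Dvd.intro_left _ rfl), hord, he]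
    exact Nat.mul_div_cancel _ (Nat.pos_of_ne_zero hepos)
  refine ⟨((g ^ e : Kˣ) : K), ?_, ?_⟩
  · have h1 : (g ^ e) ^ (p ^ a - 1) = 1 := by rw [← hu]; exact pow_orderOf_eq_one _
    have h2 : (g ^ e) ^ (p ^ a) = g ^ e := by
      have : p ^ a = (p ^ a - 1) + 1 := by omega
      rw [this, pow_succ, h1, one_mul]
    exact_mod_cast congrArg Units.val h2
  · intro h
    have h2 : (g ^ e) ^ p = g ^ e := by
      apply Units.ext
      exact_mod_cast h
    have h3 : (g ^ e) ^ (p - 1) = 1 := by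
      have : p = (p - 1) + 1 := by omega
      rw [this, pow_succ] at h2
      exact mul_eq_right.1 h2
    have h4 := orderOf_dvd_of_pow_eq_one h3
    rw [hu] at h4
    have := Nat.le_of_dvd (by omega) h4
    omega

theorem pow_red {K : Type} [Field K] (p a : ℕ) (γ : K) (h : γ ^ (p ^ a) = γ) (j r : ℕ)
    (hj : j ≡ r [MOD a]) : γ ^ (p ^ j) = γ ^ (p ^ r) := by
  have key : ∀ c i : ℕ, γ ^ (p ^ (i + a * c)) = γ ^ (p ^ i) := by
    intro c
    induction c with
    | zero => intro i; simp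
    | succ c ih =>
      intro i
      have : i + a * (c + 1) = a + (i + a * c) := by ring
      rw [this, pow_add, pow_mul, h, ih]
  have h1 := key (j / a) (j % a)
  have h2 := key (r / a) (r % a)
  rw [Nat.mod_add_div] at h1 h2
  rw [h1, h2, hj]

theorem crt {n : ℕ} (μ : Fin n ⊕ Fin n → ℕ) (h2 : ∀ i, 2 ≤ μ i)
    (hco : Pairwise (Function.onFun Nat.Coprime μ)) (v : Fin n ⊕ Fin n → ℕ) :
    ∃ g : ℕ, ∀ i, g ≡ v i [MOD μ i] := by
  obtain ⟨g, hg⟩ := Nat.chineseRemainderOfFinset v μ Finset.univ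
    (fun i _ => by have := h2 i; omega) (fun i _ j _ hij => hco hij)
  exact ⟨g, fun i => hg i (Finset.mem_univ i)⟩

theorem main_lower {F K : Type} [Field F] [Field K] [Fintype K] [Finite F] [Algebra F K]
    (p : ℕ) [hp : Fact p.Prime] [CharP K p] (N : ℕ) (hN : Fintype.card K = p ^ N) (hN0 : N ≠ 0)
    (n e : ℕ) (he : 1 ≤ e) (hen : e ≤ n) (μ : Fin n ⊕ Fin n → ℕ) (h2 : ∀ i, 2 ≤ μ i)
    (hco : Pairwise (Function.onFun Nat.Coprime μ)) (hd : ∀ i, μ i ∣ N) :
    ∃ P : Submodule F (K → F), AffInv P ∧ P ≠ ⊤ ∧ LocalChar (6 * 4 ^ (e - 1)) P ∧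
      ∀ k, SingleOrbit k P → n.choose e ≤ k := by
  classical
  haveI : Fintype F := Fintype.ofFinite F
  choose γ hγ1 hγ2 using fun i => exists_elt (K := K) p N (μ i) hN (h2 i) hN0 (hd i)
  let κ := {A : Finset (Fin n) // A ∈ Finset.powersetCard e (Finset.univ : Finset (Fin n))}
  have hκc : ∀ A : κ, A.1.card = e := fun A => (Finset.mem_powersetCard.1 A.2).2
  have hne : ∀ A : κ, A.1.Nonempty := by
    intro A
    rw [← Finset.card_pos, hκc A]
    omega
  choose w hw0 hw1 hw2 hw3 using fun A : κ =>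
    exists_word (F := F) (K := K) (fun m => γ (Sum.inl m)) (fun m => γ (Sum.inr m)) A.1 (hne A)
  choose g hg using fun A : κ => crt μ h2 hco
    (Sum.elim (fun m => if m ∈ A.1 then 1 else 0) (fun _ => 0))
  choose g' hg' using fun A : κ => crt μ h2 hco
    (Sum.elim (fun _ => 0) (fun m => if m ∈ A.1 then 1 else 0))
  have hF : FiniteDimensional F K := Module.Finite.of_finite
  have hdiag : ∀ s : κ, ∑ x, w s x • (iterateFrobenius K p (g s) x *
      iterateFrobenius K p (g' s) x) ≠ 0 := by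
    intro s
    rw [hw3 s, Finset.prod_ne_zero_iff]
    intro m hm
    have e1 := pow_red p _ _ (hγ1 (Sum.inl m)) _ _ (hg s (Sum.inl m))
    have e2 := pow_red p _ _ (hγ1 (Sum.inl m)) _ _ (hg' s (Sum.inl m))
    have e3 := pow_red p _ _ (hγ1 (Sum.inr m)) _ _ (hg s (Sum.inr m))
    have e4 := pow_red p _ _ (hγ1 (Sum.inr m)) _ _ (hg' s (Sum.inr m))
    simp only [Sum.elim_inl, Sum.elim_inr, if_pos hm, pow_zero, pow_one] at e1 e2 e3 e4
    simp only [iterateFrobenius_def, e1, e2, e3, e4]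
    exact mul_ne_zero (sub_ne_zero.2 (hγ2 _)) (sub_ne_zero.2 (hγ2 _).symm)
  have hκn : Nonempty κ := by
    obtain ⟨A, hA⟩ := Finset.powersetCard_nonempty.2
      (show e ≤ (Finset.univ : Finset (Fin n)).card by simpa using hen)
    exact ⟨⟨A, hA⟩⟩
  refine ⟨space w, space_inv w, ?_, space_local w _ ?_, ?_⟩
  · obtain ⟨s⟩ := hκn
    exact space_ne_top w (fun x => iterateFrobenius K p (g s) x *
      iterateFrobenius K p (g' s) x) s (hdiag s)
  · intro A
    have := hw0 A
    rw [hκc A] at this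
    exact this
  · intro k hk
    have := lower w (fun A : κ => iterateFrobenius K p (g A))
      (fun A : κ => iterateFrobenius K p (g' A)) hw1 hw2 ?_ (fun s => ⟨s, hdiag s⟩) k hk
    · rw [Fintype.card_coe, Finset.card_powersetCard, Finset.card_univ, Fintype.card_fin] at this
      exact this
    · intro s t hst A
      rw [hw3 A]
      have : ∃ m ∈ A.1, m ∉ s.1 ∨ m ∉ t.1 := by
        by_contra hcon
        push Not at hcon
        apply hst
        have h1 : A.1 = s.1 := Finset.eq_of_subset_of_card_le (fun m hm => (hcon m hm).1)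
          (by rw [hκc, hκc])
        have h2 : A.1 = t.1 := Finset.eq_of_subset_of_card_le (fun m hm => (hcon m hm).2)
          (by rw [hκc, hκc])
        exact Subtype.ext (h1.symm.trans h2)
      obtain ⟨m, hm, hm'⟩ := this
      apply Finset.prod_eq_zero hm
      rcases hm' with hm' | hm'
      · have e1 := pow_red p _ _ (hγ1 (Sum.inl m)) _ _ (hg s (Sum.inl m))
        have e2 := pow_red p _ _ (hγ1 (Sum.inl m)) _ _ (hg' t (Sum.inl m))
        simp only [Sum.elim_inl, if_neg hm'] at e1 e2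
        simp only [iterateFrobenius_def, e1, e2, sub_self, zero_mul]
      · have e1 := pow_red p _ _ (hγ1 (Sum.inr m)) _ _ (hg s (Sum.inr m))
        have e2 := pow_red p _ _ (hγ1 (Sum.inr m)) _ _ (hg' t (Sum.inr m))
        simp only [Sum.elim_inr, if_neg hm'] at e1 e2
        simp only [iterateFrobenius_def, e1, e2, sub_self, mul_zero]

end H79SO
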