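import Mathlib
import Pool.Agent.T6.H79.SO.Main
import Pool.Agent.T6.H79.SO.Upper

open Finset

namespace H79SO

/-- `k'(P)`: the least `k'` such that `P` has a `k'`-single orbit characterization. -/
noncomputable def kPrime {F K : Type} [Field F] [Field K] (P : Submodule F (K → F)) : ℕ :=
  sInf {k : ℕ | SingleOrbit k P}

theorem upper' {F K : Type} [Field F] [Field K] [Finite F] [Finite K] [Algebra F K]
    (p N : ℕ) (hp : p.Prime) (hN : Nat.card K = p ^ N) (k : ℕ) (P : Submodule F (K → F))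
    (hP : AffInv P) (htop : P ≠ ⊤) (hk : LocalChar k P) :
    SingleOrbit (kPrime P) P ∧ kPrime P ≤ k * (1 + (N + (k - 2)).choose (k - 2)) := by
  classical
  haveI : Fintype K := Fintype.ofFinite K
  haveI : Fact p.Prime := ⟨hp⟩
  rw [Nat.card_eq_fintype_card] at hN
  haveI : CharP K p := charP_of_card_eq_prime_pow hN
  have hN0 : N ≠ 0 := by
    rintro rfl
    have := Fintype.one_lt_card (α := K)
    rw [hN, pow_zero] at this
    omega
  have hpF : (p : F) = 0 := by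
    apply (algebraMap F K).injective
    rw [map_natCast, map_zero]
    exact CharP.cast_eq_zero K p
  obtain ⟨k', h1, h2⟩ := upper p N hpF hN0 hN k P hP htop hk
  have hmem : kPrime P ∈ {k : ℕ | SingleOrbit k P} := Nat.sInf_mem ⟨k', h2⟩
  exact ⟨hmem, (Nat.sInf_le h2).trans h1⟩

theorem lower' {F K : Type} [Field F] [Field K] [Finite F] [Finite K] [Algebra F K]
    (p N : ℕ) (hp : p.Prime) (hN : Nat.card K = p ^ N) (n e : ℕ) (he : 1 ≤ e) (hen : e ≤ n)
    (μ : Fin n ⊕ Fin n → ℕ) (h2 : ∀ i, 2 ≤ μ i)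
    (hco : Pairwise (Function.onFun Nat.Coprime μ)) (hd : ∀ i, μ i ∣ N) :
    ∃ P : Submodule F (K → F), AffInv P ∧ P ≠ ⊤ ∧ LocalChar (6 * 4 ^ (e - 1)) P ∧
      n.choose e ≤ kPrime P := by
  classical
  haveI : Fintype K := Fintype.ofFinite K
  haveI : Fact p.Prime := ⟨hp⟩
  have hN' := hN
  rw [Nat.card_eq_fintype_card] at hN
  haveI : CharP K p := charP_of_card_eq_prime_pow hN
  have hN0 : N ≠ 0 := by
    rintro rfl
    have := Fintype.one_lt_card (α := K)
    rw [hN, pow_zero] at this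
    omega
  obtain ⟨P, h3, h4, h5, h6⟩ := main_lower (F := F) p N hN hN0 n e he hen μ h2 hco hd
  exact ⟨P, h3, h4, h5, h6 _ (upper' p N hp hN' _ P h3 h4 h5).1⟩

/-- `2n` distinct primes are enough -/
theorem lower_primes {F K : Type} [Field F] [Field K] [Finite F] [Finite K] [Algebra F K]
    (p N : ℕ) (hp : p.Prime) (hN : Nat.card K = p ^ N) (n e : ℕ) (he : 1 ≤ e) (hen : e ≤ n)
    (hω : 2 * n ≤ N.primeFactors.card) :
    ∃ P : Submodule F (K → F), AffInv P ∧ P ≠ ⊤ ∧ LocalChar (6 * 4 ^ (e - 1)) P ∧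
      n.choose e ≤ kPrime P := by
  classical
  have hcard : Fintype.card (Fin n ⊕ Fin n) ≤ Fintype.card N.primeFactors := by
    rw [Fintype.card_sum, Fintype.card_fin, Fintype.card_coe]
    omega
  obtain ⟨ι⟩ := Function.Embedding.nonempty_of_card_le hcard
  refine lower' p N hp hN n e he hen (fun i => (ι i : ℕ))
    (fun i => (Nat.prime_of_mem_primeFactors (ι i).2).two_le) ?_
    (fun i => Nat.dvd_of_mem_primeFactors (ι i).2)
  intro i j hij
  refine (Nat.coprime_primes (Nat.prime_of_mem_primeFactors (ι i).2)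
    (Nat.prime_of_mem_primeFactors (ι j).2)).2 ?_
  intro h
  exact hij (ι.injective (Subtype.ext h))

/-- primes `f 0 < f 1 < …` with `f i ≤ 2^(i+1)` -/
theorem exists_primes : ∃ f : ℕ → ℕ, StrictMono f ∧ ∀ i, (f i).Prime ∧ f i ≤ 2 ^ (i + 1) := by
  choose nx h1 h2 h3 using fun (n : ℕ) (hn : n ≠ 0) => Nat.exists_prime_lt_and_le_two_mul n hn
  let F : ℕ → {q : ℕ // q ≠ 0 ∧ q.Prime} := fun i =>
    Nat.rec ⟨2, by norm_num, Nat.prime_two⟩
      (fun _ q => ⟨nx q.1 q.2.1, (h1 q.1 q.2.1).ne_zero, h1 q.1 q.2.1⟩) i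
  refine ⟨fun i => (F i).1, strictMono_nat_of_lt_succ fun i => h2 _ (F i).2.1,
    fun i => ⟨(F i).2.2, ?_⟩⟩
  induction i with
  | zero => exact le_refl _
  | succ i ih =>
    calc (F (i + 1)).1 ≤ 2 * (F i).1 := h3 _ (F i).2.1
      _ ≤ 2 * 2 ^ (i + 1) := Nat.mul_le_mul_left 2 ih
      _ = 2 ^ (i + 1 + 1) := by ring

theorem exists_degree (n : ℕ) : ∃ t : ℕ, t ≠ 0 ∧ t ≤ 2 ^ (n * (2 * n + 1)) ∧
    2 * n ≤ t.primeFactors.card := by
  obtain ⟨f, hf, hf2⟩ := exists_primes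
  have hprod : ∀ m : ℕ, (∏ i ∈ Finset.range m, f i) ^ 2 ≤ 2 ^ (m * (m + 1)) := by
    intro m
    induction m with
    | zero => simp
    | succ m ih =>
      rw [Finset.prod_range_succ, mul_pow]
      calc (∏ i ∈ Finset.range m, f i) ^ 2 * f m ^ 2 ≤ 2 ^ (m * (m + 1)) * (2 ^ (m + 1)) ^ 2 :=
            Nat.mul_le_mul ih (Nat.pow_le_pow_left (hf2 m).2 2)
        _ = 2 ^ ((m + 1) * (m + 1 + 1)) := by rw [← pow_mul, ← pow_add]; congr 1; ring
  have hne : ∏ i ∈ Finset.range (2 * n), f i ≠ 0 :=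
    Finset.prod_ne_zero_iff.2 fun i _ => (hf2 i).1.ne_zero
  refine ⟨∏ i ∈ Finset.range (2 * n), f i, hne, ?_, ?_⟩
  · have h1 := hprod (2 * n)
    have h2 : 2 ^ (2 * n * (2 * n + 1)) = (2 ^ (n * (2 * n + 1))) ^ 2 := by
      rw [← pow_mul]; congr 1; ring
    rw [h2] at h1
    exact (Nat.pow_le_pow_iff_left (by norm_num)).1 h1
  · have hsub : (Finset.range (2 * n)).image f ⊆
        (∏ i ∈ Finset.range (2 * n), f i).primeFactors := by
      intro q hq
      obtain ⟨i, hi, rfl⟩ := Finset.mem_image.1 hq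
      exact Nat.mem_primeFactors.2 ⟨(hf2 i).1, Finset.dvd_prod_of_mem f hi, hne⟩
    have := Finset.card_le_card hsub
    rwa [Finset.card_image_of_injective _ hf.injective, Finset.card_range] at this

/-- fields of degree `t ≤ 2^(n(2n+1))` over an arbitrary finite field -/
theorem lower_degree (F : Type) [Field F] [Finite F] (n e : ℕ) (he : 1 ≤ e) (hen : e ≤ n) :
    ∃ t : ℕ, t ≤ 2 ^ (n * (2 * n + 1)) ∧
      ∃ (K : Type) (_ : Field K) (_ : Finite K) (_ : Algebra F K), Module.finrank F K = t ∧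
        ∃ P : Submodule F (K → F), AffInv P ∧ P ≠ ⊤ ∧ LocalChar (6 * 4 ^ (e - 1)) P ∧
          n.choose e ≤ kPrime P := by
  classical
  obtain ⟨t, ht0, ht, hω⟩ := exists_degree n
  haveI : Fintype F := Fintype.ofFinite F
  obtain ⟨p, hpc⟩ := CharP.exists F
  obtain ⟨s, hp, hs⟩ := FiniteField.card F p
  haveI : Fact p.Prime := ⟨hp⟩
  haveI : NeZero t := ⟨ht0⟩
  refine ⟨t, ht, FiniteField.Extension F p t, inferInstance, inferInstance, inferInstance,
    FiniteField.finrank_extension F p t, ?_⟩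
  refine lower_primes p (s * t) hp ?_ n e he hen ?_
  · rw [FiniteField.natCard_extension, Nat.card_eq_fintype_card, hs, pow_mul]
  · refine hω.trans (Finset.card_le_card ?_)
    intro q hq
    rw [Nat.mem_primeFactors] at hq ⊢
    exact ⟨hq.1, hq.2.1.mul_left _, mul_ne_zero s.2.ne' ht0⟩

end H79SO
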