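import Mathlib
import Pool.Agent.T6.H79.SO.Final

open Finset

namespace H79SO

variable {K : Type} [Field K] [Fintype K] [DecidableEq K]

/-- five point words -/
def w5 (γ δ : K) : K → K := fun x =>
  (if x = γ * δ then 1 else 0) - γ * (if x = δ then 1 else 0) - δ * (if x = γ then 1 else 0) +
    γ * δ * (if x = 1 then 1 else 0) - (1 - γ) * (1 - δ) * (if x = 0 then 1 else 0)

theorem sum_w5 (γ δ : K) (φ : K → K) : ∑ x, w5 γ δ x * φ x =
    φ (γ * δ) - γ * φ δ - δ * φ γ + γ * δ * φ 1 - (1 - γ) * (1 - δ) * φ 0 := by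
  simp only [w5, sub_mul, add_mul, Finset.sum_sub_distrib, Finset.sum_add_distrib, ite_mul,
    mul_ite, mul_one, mul_zero, one_mul, zero_mul, Finset.sum_ite_eq', Finset.mem_univ, if_true]
  
theorem supp_w5 (γ δ : K) : (univ.filter (fun x => w5 γ δ x ≠ 0)).card ≤ 5 := by
  have : (univ.filter (fun x => w5 γ δ x ≠ 0)) ⊆ ({γ * δ, δ, γ, 1, 0} : Finset K) := by
    intro x hx
    simp only [Finset.mem_filter, Finset.mem_univ, true_and] at hx
    by_contra hcon
    simp only [Finset.mem_insert, Finset.mem_singleton, not_or] at hcon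
    obtain ⟨h1, h2, h3, h4, h5⟩ := hcon
    apply hx
    simp [w5, h1, h2, h3, h4, h5]
  exact (Finset.card_le_card this).trans Finset.card_le_five

theorem lower5 (p : ℕ) [hp : Fact p.Prime] [CharP K p] (N : ℕ) (hN : Fintype.card K = p ^ N)
    (hN0 : N ≠ 0) (n : ℕ) (hn : 1 ≤ n) (μ : Fin n ⊕ Fin n → ℕ) (h2 : ∀ i, 2 ≤ μ i)
    (hco : Pairwise (Function.onFun Nat.Coprime μ)) (hd : ∀ i, μ i ∣ N) :
    ∃ P : Submodule K (K → K), AffInv P ∧ P ≠ ⊤ ∧ LocalChar 5 P ∧
      ∀ k, SingleOrbit k P → n ≤ k := by
  classical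
  choose γ hγ1 hγ2 using fun i => exists_elt (K := K) p N (μ i) hN (h2 i) hN0 (hd i)
  have hfr : ∀ x : K, x ^ (p ^ N) = x := by
    intro x
    rw [← hN]
    exact FiniteField.pow_card x
  choose g hg using fun A : Fin n => crt μ h2 hco
    (Sum.elim (fun m => if m = A then 1 else 0) (fun _ => 0))
  choose g' hg' using fun A : Fin n => crt μ h2 hco
    (Sum.elim (fun _ => 0) (fun m => if m = A then 1 else 0))
  set w : Fin n → K → K := fun m => w5 (γ (Sum.inl m)) (γ (Sum.inr m)) with hw
  let σ : Fin n → Fin n → (K →+* K) := fun A B => iterateFrobenius K p (g' B + (N - 1) * g A)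
  have hval : ∀ (m : Fin n) (τ : K →+* K), ∑ x, w m x * τ x =
      (τ (γ (Sum.inl m)) - γ (Sum.inl m)) * (τ (γ (Sum.inr m)) - γ (Sum.inr m)) := by
    intro m τ
    rw [hw]
    simp only
    rw [sum_w5, map_mul, map_one, map_zero]
    ring
  have hc0 : ∀ (m : Fin n) (c : K), ∑ x, w m x * c = 0 := by
    intro m c
    rw [hw]
    simp only
    rw [sum_w5 _ _ (fun _ => c)]
    ring
  have hmem : ∀ τ : K →+* K, (∀ m, ∑ x, w m x * τ x = 0) → (fun x => τ x) ∈ space w := by
    intro τ hτ m a b _
    have : ∑ x, w m x * τ (a * x + b) = τ a * ∑ x, w m x * τ x + ∑ x, w m x * τ b := by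
      rw [Finset.mul_sum, ← Finset.sum_add_distrib]
      refine Finset.sum_congr rfl fun x _ => ?_
      rw [map_add, map_mul]; ring
    rw [this, hτ, hc0]; ring
  have hcmem : (fun _ => 1) ∈ space w := fun m a b _ => hc0 m 1
  have hoff : ∀ A B : Fin n, A ≠ B → ∀ m, ∑ x, w m x * σ A B x = 0 := by
    intro A B hAB m
    rw [hval]
    by_cases hm : m = A
    · have e1 : g' B + (N - 1) * g A ≡ 0 [MOD μ (Sum.inr m)] := by
        have a1 := hg' B (Sum.inr m)
        have a2 := hg A (Sum.inr m)
        simp only [Sum.elim_inr] at a1 a2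
        rw [if_neg (by rw [hm]; exact hAB)] at a1
        simpa using a1.add (a2.mul_left (N - 1))
      have e2 := pow_red p _ _ (hγ1 (Sum.inr m)) _ _ e1
      rw [pow_zero, pow_one] at e2
      simp only [σ, iterateFrobenius_def, e2, sub_self, mul_zero]
    · have e1 : g' B + (N - 1) * g A ≡ 0 [MOD μ (Sum.inl m)] := by
        have a1 := hg' B (Sum.inl m)
        have a2 := hg A (Sum.inl m)
        simp only [Sum.elim_inl] at a1 a2
        rw [if_neg hm] at a2
        simpa using a1.add (a2.mul_left (N - 1))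
      have e2 := pow_red p _ _ (hγ1 (Sum.inl m)) _ _ e1
      rw [pow_zero, pow_one] at e2
      simp only [σ, iterateFrobenius_def, e2, sub_self, zero_mul]
  have hdiag : ∀ A : Fin n, ∑ x, w A x * σ A A x ≠ 0 := by
    intro A
    rw [hval]
    refine mul_ne_zero (sub_ne_zero.2 ?_) (sub_ne_zero.2 ?_)
    · have e1 : g' A + (N - 1) * g A ≡ N - 1 [MOD μ (Sum.inl A)] := by
        have a1 := hg' A (Sum.inl A)
        have a2 := hg A (Sum.inl A)
        simp only [Sum.elim_inl, if_true] at a1 a2
        simpa using a1.add (a2.mul_left (N - 1))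
      have e2 := pow_red p _ _ (hγ1 (Sum.inl A)) _ _ e1
      simp only [σ, iterateFrobenius_def, e2]
      intro h
      apply hγ2 (Sum.inl A)
      have e3 := hfr (γ (Sum.inl A))
      have e4 : p ^ N = p ^ (N - 1) * p := by
        rw [← pow_succ]; congr 1; omega
      rw [e4, pow_mul, h] at e3
      exact e3
    · have e1 : g' A + (N - 1) * g A ≡ 1 [MOD μ (Sum.inr A)] := by
        have a1 := hg' A (Sum.inr A)
        have a2 := hg A (Sum.inr A)
        simp only [Sum.elim_inr, if_true] at a1 a2
        simpa using a1.add (a2.mul_left (N - 1))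
      have e2 := pow_red p _ _ (hγ1 (Sum.inr A)) _ _ e1
      rw [pow_one] at e2
      simp only [σ, iterateFrobenius_def, e2]
      exact hγ2 _
  have hnot : ∀ A : Fin n, (fun x => σ A A x) ∉ space w := by
    intro A hA
    have := hA A 1 0 one_ne_zero
    simp only [one_mul, add_zero] at this
    exact hdiag A this
  refine ⟨space w, space_inv w, ?_, space_local w 5 (fun m => supp_w5 _ _), ?_⟩
  · intro htop
    apply hnot ⟨0, by omega⟩
    rw [htop]; trivial
  · rintro k ⟨C, hC⟩
    set V : Submodule K (Fin k → K) := (space w).map (LinearMap.funLeft K K C.pt) with hV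
    have hVS : ∀ v ∈ V, v ∈ C.S := by
      rintro v ⟨f, hf, rfl⟩
      have h : (fun i => f (1 * C.pt i + 0)) ∈ C.S := (hC f).1 hf 1 0 one_ne_zero
      simp only [one_mul, add_zero] at h
      exact h
    have hrow : ∀ A : Fin n, ∃ h : Fin k → K, (∀ v ∈ V, ∑ m, h m * v m = 0) ∧
        ∑ m, h m * σ A A (C.pt m) ≠ 0 := by
      intro A
      have h1 := hnot A
      rw [hC] at h1
      push Not at h1
      obtain ⟨a, b, ha, hab⟩ := h1
      have hnV : (fun m => σ A A (a * C.pt m + b)) ∉ V := fun hmem => hab (hVS _ hmem)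
      obtain ⟨ψ, hψ1, hψ2⟩ := Submodule.exists_le_ker_of_notMem hnV
      have hψ : ∀ v : Fin k → K, ψ v = ∑ m, ψ (fun j => if m = j then 1 else 0) * v m := by
        intro v
        rw [LinearMap.pi_apply_eq_sum_univ ψ v]
        refine Finset.sum_congr rfl fun m _ => ?_
        rw [smul_eq_mul, mul_comm]
      refine ⟨fun m => ψ (fun j => if m = j then 1 else 0), ?_, ?_⟩
      · intro v hv
        rw [← hψ]
        exact hψ2 hv
      · intro hzero
        apply hψ1
        rw [hψ]
        have h1 : ∑ m, ψ (fun j => if m = j then 1 else 0) * (1 : K) = 0 := by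
          rw [← hψ (fun _ => 1)]
          exact hψ2 ⟨_, hcmem, rfl⟩
        have h3 : ∑ m, ψ (fun j => if m = j then 1 else 0) * σ A A (a * C.pt m + b) =
            σ A A a * ∑ m, ψ (fun j => if m = j then 1 else 0) * σ A A (C.pt m) +
            σ A A b * ∑ m, ψ (fun j => if m = j then 1 else 0) * (1 : K) := by
          rw [Finset.mul_sum, Finset.mul_sum, ← Finset.sum_add_distrib]
          refine Finset.sum_congr rfl fun m _ => ?_
          rw [map_add, map_mul]; ring
        rw [h3, hzero, h1]; ring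
    choose h hh1 hh2 using hrow
    let τ : Fin n → (K →+* K) := fun A => iterateFrobenius K p (g A)
    let ρ : Fin n → (K →+* K) := fun B => iterateFrobenius K p (g' B)
    have hcomp : ∀ A B x, τ A (σ A B x) = ρ B x := by
      intro A B x
      simp only [τ, σ, ρ, iterateFrobenius_def]
      rw [← pow_mul, ← pow_add]
      have e : g' B + (N - 1) * g A + g A = g' B + N * g A := by
        obtain ⟨M, rfl⟩ := Nat.exists_eq_succ_of_ne_zero hN0
        simp only [Nat.succ_eq_add_one, Nat.add_sub_cancel]
        ring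
      rw [e]
      exact pow_red p N x (hfr x) _ _ (by simp [Nat.ModEq])
    have hdot : ∀ A B, ∑ m, τ A (h A m) * ρ B (C.pt m) =
        τ A (∑ m, h A m * σ A B (C.pt m)) := by
      intro A B
      rw [map_sum]
      refine Finset.sum_congr rfl fun m _ => ?_
      rw [map_mul, hcomp]
    have hlin : LinearIndependent K (fun A : Fin n => fun m : Fin k => τ A (h A m)) := by
      rw [Fintype.linearIndependent_iff]
      intro c hc B
      have h5 : ∑ m, (∑ A, c A * τ A (h A m)) * ρ B (C.pt m) = 0 := by
        refine Finset.sum_eq_zero fun m _ => ?_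
        have := congrFun hc m
        simp only [Finset.sum_apply, Pi.smul_apply, smul_eq_mul, Pi.zero_apply] at this
        rw [this, zero_mul]
      have h6 : ∑ m, (∑ A, c A * τ A (h A m)) * ρ B (C.pt m) =
          ∑ A, c A * ∑ m, τ A (h A m) * ρ B (C.pt m) := by
        simp only [Finset.sum_mul, Finset.mul_sum]
        rw [Finset.sum_comm]
        refine Finset.sum_congr rfl fun A _ => Finset.sum_congr rfl fun m _ => ?_
        ring
      rw [h6, Finset.sum_eq_single B] at h5
      · rw [hdot] at h5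
        refine (mul_eq_zero.1 h5).resolve_right ?_
        intro hz
        exact hh2 B ((map_eq_zero (τ B)).1 hz)
      · intro A _ hAB
        have h7 : ∑ m, h A m * σ A B (C.pt m) = 0 :=
          hh1 A _ ⟨_, hmem _ (hoff A B hAB), rfl⟩
        rw [hdot, h7, map_zero, mul_zero]
      · intro hs
        exact absurd (Finset.mem_univ _) hs
    have := hlin.fintype_card_le_finrank
    simpa using this

end H79SO
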