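import Mathlib
import Pool.Agent.T6.H79.SO.Binary2

open Finset

namespace H79SO

variable {F K : Type} [Field F] [Field K]

theorem single_bot (P : Submodule F (K → F)) (hbot : P = ⊥) : SingleOrbit 1 P := by
  refine ⟨⟨fun _ => 0, {0}, ?_⟩, fun f => ?_⟩
  · intro h
    have : (fun _ => 1 : Fin 1 → F) ∈ ({0} : Set (Fin 1 → F)) := by rw [h]; trivial
    rw [Set.mem_singleton_iff] at this
    exact one_ne_zero (congrFun this 0)
  · rw [hbot, Submodule.mem_bot]
    constructor
    · rintro rfl a b _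
      show (fun i => (0 : K → F) _) ∈ ({0} : Set (Fin 1 → F))
      rw [Set.mem_singleton_iff]
      rfl
    · intro h
      funext b
      have h1 := h 1 b one_ne_zero
      have h3 : (fun _ : Fin 1 => f (1 * 0 + b)) ∈ ({0} : Set (Fin 1 → F)) := h1
      rw [Set.mem_singleton_iff] at h3
      have h4 := congrFun h3 0
      simpa using h4

theorem single_const (P : Submodule F (K → F)) (hbot : P ≠ ⊥)
    (hconst : ∀ g ∈ P, ∀ x y : K, g x = g y) : SingleOrbit 2 P := by
  have hone : ∀ c : F, (fun _ => c : K → F) ∈ P := by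
    obtain ⟨g, hg, hg0⟩ := (Submodule.ne_bot_iff P).1 hbot
    have : ∃ x, g x ≠ 0 := by
      by_contra hcon
      push Not at hcon
      exact hg0 (funext hcon)
    obtain ⟨x, hx⟩ := this
    intro c
    have h1 := P.smul_mem (c / g x) hg
    have h3 : (c / g x) • g = fun _ => c := by
      funext y
      rw [Pi.smul_apply, smul_eq_mul, hconst g hg y x, div_mul_cancel₀ _ hx]
    rwa [h3] at h1
  refine ⟨⟨![0, 1], {v | v 0 = v 1}, ?_⟩, fun f => ?_⟩
  · intro h
    have : (![1, 0] : Fin 2 → F) ∈ {v : Fin 2 → F | v 0 = v 1} := by rw [h]; trivial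
    simp at this
  · constructor
    · intro hf a b _
      exact hconst f hf _ _
    · intro h
      have : f = fun _ => f 0 := by
        funext x
        by_cases hx : x = 0
        · rw [hx]
        · have h1 := h x 0 hx
          have h3 : f (x * 0 + 0) = f (x * 1 + 0) := h1
          simp only [mul_zero, mul_one, add_zero] at h3
          exact h3.symm
      rw [this]
      exact hone _

/-- the relation with ratio `γ` and multiplier `μ` -/
def EE (g : K → F) (γ : K) (μ : F) : Prop :=
  ∀ a b : K, g (b + γ * a) - g b = μ * (g (b + a) - g b)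

theorem sep_three [Fintype K] [DecidableEq K] [DecidableEq F]
    (hQ : (Fintype.card K : F) = 0)
    (k : ℕ) (hk3 : k ≤ 3) (P : Submodule F (K → F)) (hP : AffInv P)
    (hk : LocalChar k P) (hnc : ∃ g ∈ P, ∃ x y : K, g x ≠ g y) (f : K → F) (hf : f ∉ P) :
    ∃ (γ : K) (μ : F), γ ≠ 0 ∧ γ ≠ 1 ∧ μ ≠ 0 ∧ ¬ EE f γ μ ∧ ∀ g ∈ P, EE g γ μ := by
  obtain ⟨w, hw1, hw2, hw3⟩ := exists_sep k P hk f hf
  set s := univ.filter (fun x => w x ≠ 0) with hs
  have hsum : ∀ G : K → F, ∑ x, w x * G x = ∑ x ∈ s, w x * G x := by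
    intro G
    symm
    apply Finset.sum_subset (Finset.subset_univ _)
    intro x _ hx
    have : w x = 0 := by
      by_contra h
      exact hx (by simp [hs, h])
    rw [this, zero_mul]
  have hws : ∀ x ∈ s, w x ≠ 0 := by
    intro x hx
    simpa [hs] using hx
  have hrel : ∀ g ∈ P, ∀ a b : K, a ≠ 0 → ∑ x, w x * g (a * x + b) = 0 := by
    intro g hg a b ha
    exact hw2 _ (hP g hg a b ha)
  obtain ⟨g0, hg0, p, q, hpq⟩ := hnc
  have hw0 : ∑ x, w x = 0 := by
    by_contra hne
    have := zero_of_sum hQ w hne g0 (hrel g0 hg0)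
    rw [this p, this q] at hpq
    exact hpq rfl
  have hw0s : ∑ x ∈ s, w x = 0 := by
    have := hsum (fun _ => 1)
    simp only [mul_one] at this
    rw [← this, hw0]
  have h3 : s.card ≤ 3 := hw1.trans hk3
  interval_cases hc : s.card
  · exfalso
    rw [Finset.card_eq_zero] at hc
    rw [hsum, hc, Finset.sum_empty] at hw3
    exact hw3 rfl
  · exfalso
    obtain ⟨x, hx⟩ := Finset.card_eq_one.1 hc
    rw [hx, Finset.sum_singleton] at hw0s
    exact hws x (by rw [hx]; simp) hw0s
  · exfalso
    obtain ⟨x, y, hxy, hs2⟩ := Finset.card_eq_two.1 hc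
    have hne : p - q ≠ 0 := by
      intro h
      rw [sub_eq_zero.1 h] at hpq
      exact hpq rfl
    have hxy' : x - y ≠ 0 := sub_ne_zero.2 hxy
    have e := hrel g0 hg0 ((p - q) / (x - y)) (p - (p - q) / (x - y) * x) (div_ne_zero hne hxy')
    rw [hsum (fun x' => g0 ((p - q) / (x - y) * x' + (p - (p - q) / (x - y) * x))), hs2,
      Finset.sum_pair hxy] at e
    rw [hs2, Finset.sum_pair hxy] at hw0s
    have t1 : (p - q) / (x - y) * x + (p - (p - q) / (x - y) * x) = p := by ring
    have t2 : (p - q) / (x - y) * y + (p - (p - q) / (x - y) * x) = q := by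
      field_simp
      ring
    rw [t1, t2] at e
    have hwx : w x ≠ 0 := hws x (by rw [hs2]; simp)
    have e2 : w x * (g0 p - g0 q) = 0 := by linear_combination e - g0 q * hw0s
    rcases mul_eq_zero.1 e2 with h | h
    · exact hwx h
    · exact hpq (sub_eq_zero.1 h)
  · obtain ⟨x, y, z, hxy, hxz, hyz, hs3⟩ := Finset.card_eq_three.1 hc
    have hsumS : ∀ G : K → F, ∑ i ∈ s, w i * G i = w x * G x + w y * G y + w z * G z := by
      intro G
      rw [hs3, Finset.sum_insert (by simp [hxy, hxz]), Finset.sum_pair hyz]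
      ring
    have hw0' : w x + w y + w z = 0 := by
      have := hsumS (fun _ => 1)
      simp only [mul_one] at this
      rw [← this, hw0s]
    have hwy : w y ≠ 0 := hws y (by rw [hs3]; simp)
    have hwz : w z ≠ 0 := hws z (by rw [hs3]; simp)
    have hyx : y - x ≠ 0 := sub_ne_zero.2 hxy.symm
    have hzx : z - x ≠ 0 := sub_ne_zero.2 hxz.symm
    refine ⟨(z - x) / (y - x), -(w y / w z), div_ne_zero hzx hyx, ?_,
      neg_ne_zero.2 (div_ne_zero hwy hwz), ?_, ?_⟩
    · intro h
      rw [div_eq_one_iff_eq hyx] at h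
      apply hyz
      linear_combination -h
    · intro hE
      apply hw3
      have e := hE (y - x) x
      rw [div_mul_cancel₀ _ hyx] at e
      have t1 : x + (z - x) = z := by ring
      have t2 : x + (y - x) = y := by ring
      rw [t1, t2] at e
      rw [hsum, hsumS]
      have e2 : w z * (f z - f x) + w y * (f y - f x) = 0 := by
        rw [e]; field_simp; ring
      linear_combination e2 + f x * hw0'
    · intro g hg a b
      by_cases ha : a = 0
      · subst ha; simp
      have hne : a / (y - x) ≠ 0 := div_ne_zero ha hyx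
      have e := hrel g hg (a / (y - x)) (b - a / (y - x) * x) hne
      rw [hsum (fun i => g (a / (y - x) * i + (b - a / (y - x) * x))), hsumS] at e
      have t0 : a / (y - x) * x + (b - a / (y - x) * x) = b := by ring
      have t1 : a / (y - x) * y + (b - a / (y - x) * x) = b + a := by
        field_simp
        ring
      have t2 : a / (y - x) * z + (b - a / (y - x) * x) = b + (z - x) / (y - x) * a := by
        field_simp
        ring
      rw [t0, t1, t2] at e
      have e2 : w z * (g (b + (z - x) / (y - x) * a) - g b) =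
          w z * (-(w y / w z) * (g (b + a) - g b)) := by
        have : w z * (-(w y / w z) * (g (b + a) - g b)) = -(w y * (g (b + a) - g b)) := by
          field_simp
        rw [this]
        linear_combination e - g b * hw0'
      exact mul_left_cancel₀ hwz e2

/-- `g` minus its value at `0` is additive -/
theorem add_of_EE [DecidableEq K] (g : K → F) (γ : K) (μ : F) (h0 : γ ≠ 0) (h1 : γ ≠ 1)
    (h : EE g γ μ) : ∀ a b : K, g (b + a) - g b = g a - g 0 := by
  have hcard : ({0, 1, γ} : Finset K).card = 2 + 1 := by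
    rw [Finset.card_insert_of_notMem, Finset.card_insert_of_notMem, Finset.card_singleton]
    · simpa using h1.symm
    · simp only [Finset.mem_insert, Finset.mem_singleton, not_or]
      exact ⟨zero_ne_one, h0.symm⟩
  have hv := van_of_rel (F := F) 2 {0, 1, γ} hcard
    (fun i x => (if i = γ then 1 else if i = 1 then -μ else μ - 1) * g x) ?_ γ (by simp)
  · intro a b
    have e := hv a b 0
    simp only [if_true, one_mul, zero_add] at e
    linear_combination e
  · intro a b
    rw [Finset.sum_insert, Finset.sum_insert, Finset.sum_singleton]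
    · have e := h a b
      have t1 : b + a * 0 = b := by ring
      have t2 : b + a * 1 = b + a := by ring
      have t3 : b + a * γ = b + γ * a := by ring
      rw [t1, t2, t3, if_neg h0.symm, if_neg zero_ne_one, if_neg h1.symm, if_pos rfl, if_pos rfl]
      linear_combination e
    · simpa using h1.symm
    · simp only [Finset.mem_insert, Finset.mem_singleton, not_or]
      exact ⟨zero_ne_one, h0.symm⟩

/-- pairs of ratios and multipliers of `g` -/
def MM (g : K → F) (hg : ∀ a b : K, g (b + a) - g b = g a - g 0) : Subgroup (Kˣ × Fˣ) where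
  carrier := {m | ∀ a : K, g ((m.1 : K) * a) - g 0 = (m.2 : F) * (g a - g 0)}
  mul_mem' := by
    intro m m' h h' a
    have e1 := h ((m'.1 : K) * a)
    have e2 := h' a
    rw [Prod.fst_mul, Prod.snd_mul, Units.val_mul, Units.val_mul, mul_assoc, mul_assoc, e1, e2]
  one_mem' := by
    intro a
    simp
  inv_mem' := by
    intro m h a
    have e1 := h (((m.1⁻¹ : Kˣ) : K) * a)
    rw [← mul_assoc, Units.mul_inv, one_mul] at e1
    rw [Prod.fst_inv, Prod.snd_inv, e1, ← mul_assoc, Units.inv_mul, one_mul]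

theorem EE_iff (g : K → F) (hg : ∀ a b : K, g (b + a) - g b = g a - g 0) (m : Kˣ × Fˣ) :
    m ∈ MM g hg ↔ EE g m.1 m.2 := by
  constructor
  · intro h a b
    rw [hg, hg]
    exact h a
  · intro h a
    have := h a 0
    simp only [zero_add] at this
    exact this

theorem ternary [Fintype K] [DecidableEq K] [DecidableEq F]
    (hQ : (Fintype.card K : F) = 0)
    (k : ℕ) (hk3 : k ≤ 3) (P : Submodule F (K → F)) (hP : AffInv P) (htop : P ≠ ⊤)
    (hk : LocalChar k P) : ∃ k' ≤ 3, SingleOrbit k' P := by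
  by_cases hbot : P = ⊥
  · exact ⟨1, by norm_num, single_bot P hbot⟩
  by_cases hconst : ∀ g ∈ P, ∀ x y : K, g x = g y
  · exact ⟨2, by norm_num, single_const P hbot hconst⟩
  push Not at hconst
  have hnc : ∃ g ∈ P, ∃ x y : K, g x ≠ g y := hconst
  have hsep := sep_three hQ k hk3 P hP hk hnc
  have hf : ∃ f, f ∉ P := by
    by_contra hcon
    push Not at hcon
    exact htop (eq_top_iff.2 fun f _ => hcon f)
  obtain ⟨f0, hf0⟩ := hf
  obtain ⟨γ1, μ1, hγ10, hγ11, hμ1, _, hP1⟩ := hsep f0 hf0
  have hadd : ∀ g ∈ P, ∀ a b : K, g (b + a) - g b = g a - g 0 :=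
    fun g hg => add_of_EE g γ1 μ1 hγ10 hγ11 (hP1 g hg)
  let M : Subgroup (Kˣ × Fˣ) := ⨅ g : P, MM g.1 (hadd g.1 g.2)
  have hM : ∀ m : Kˣ × Fˣ, m ∈ M ↔ ∀ g ∈ P, EE g m.1 m.2 := by
    intro m
    simp only [M, Subgroup.mem_iInf, EE_iff]
    exact ⟨fun h g hg => h ⟨g, hg⟩, fun h g => h g.1 g.2⟩
  obtain ⟨g0, hg0, p, q, hpq⟩ := hnc
  have hinj1 : ∀ m ∈ M, m.1 = 1 → m.2 = 1 := by
    intro m hm h1
    have h3 := (hM m).1 hm g0 hg0 (q - p) p
    rw [h1, Units.val_one, one_mul, add_sub_cancel] at h3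
    have hne : g0 q - g0 p ≠ 0 := sub_ne_zero.2 hpq.symm
    apply Units.ext
    rw [Units.val_one]
    have h4 : ((m.2 : F) - 1) * (g0 q - g0 p) = 0 := by linear_combination -h3
    exact sub_eq_zero.1 ((mul_eq_zero.1 h4).resolve_right hne)
  have hinj : Function.Injective ((MonoidHom.fst Kˣ Fˣ).comp M.subtype) := by
    rw [injective_iff_map_eq_one]
    intro m hm
    have h1 : m.1.1 = 1 := hm
    exact Subtype.ext (Prod.ext h1 (hinj1 m.1 m.2 h1))
  haveI : IsCyclic M := isCyclic_of_injective _ hinj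
  obtain ⟨m0, hm0⟩ := IsCyclic.exists_generator (α := M)
  have hgen : ∀ m ∈ M, m ∈ Subgroup.zpowers (m0 : Kˣ × Fˣ) := by
    intro m hm
    obtain ⟨n, hn⟩ := hm0 ⟨m, hm⟩
    exact ⟨n, by simpa using congrArg Subtype.val hn⟩
  have hγ01 : ((m0.1.1 : Kˣ) : K) ≠ 1 := by
    intro h
    have h1 : m0.1.1 = 1 := Units.ext h
    have h3 : (m0 : Kˣ × Fˣ) = 1 := Prod.ext h1 (hinj1 m0.1 m0.2 h1)
    have h4 := hgen (Units.mk0 γ1 hγ10, Units.mk0 μ1 hμ1) ((hM _).2 hP1)
    rw [h3, Subgroup.zpowers_one_eq_bot, Subgroup.mem_bot] at h4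
    have h5 := congrArg (fun m : Kˣ × Fˣ => (m.1 : K)) h4
    exact hγ11 h5
  refine ⟨3, le_refl 3, ⟨![0, 1, ((m0.1.1 : Kˣ) : K)],
    {v | v 2 - v 0 = ((m0.1.2 : Fˣ) : F) * (v 1 - v 0)}, ?_⟩, fun f => ?_⟩
  · intro h
    have : (![0, 0, 1] : Fin 3 → F) ∈
        {v : Fin 3 → F | v 2 - v 0 = ((m0.1.2 : Fˣ) : F) * (v 1 - v 0)} := by
      rw [h]; trivial
    simp at this
  · have hconv : ∀ a b : K, (f (a * ((m0.1.1 : Kˣ) : K) + b) - f (a * 0 + b) =
        ((m0.1.2 : Fˣ) : F) * (f (a * 1 + b) - f (a * 0 + b))) ↔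
        (f (b + ((m0.1.1 : Kˣ) : K) * a) - f b = ((m0.1.2 : Fˣ) : F) * (f (b + a) - f b)) := by
      intro a b
      have t1 : a * 0 + b = b := by ring
      have t2 : a * 1 + b = b + a := by ring
      have t3 : a * ((m0.1.1 : Kˣ) : K) + b = b + ((m0.1.1 : Kˣ) : K) * a := by ring
      rw [t1, t2, t3]
    constructor
    · intro hf a b _
      show f (a * ((m0.1.1 : Kˣ) : K) + b) - f (a * 0 + b) =
        ((m0.1.2 : Fˣ) : F) * (f (a * 1 + b) - f (a * 0 + b))
      rw [hconv]
      exact (hM m0).1 m0.2 f hf a b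
    · intro h
      have h1 : EE f ((m0.1.1 : Kˣ) : K) ((m0.1.2 : Fˣ) : F) := by
        intro a b
        by_cases ha : a = 0
        · subst ha; simp
        · rw [← hconv]
          exact h a b ha
      have hfa := add_of_EE f _ _ (m0.1.1 : Kˣ).ne_zero hγ01 h1
      have hle : M ≤ MM f hfa := by
        intro m hm
        have h3 := hgen m hm
        have h4 : Subgroup.zpowers (m0 : Kˣ × Fˣ) ≤ MM f hfa := by
          rw [Subgroup.zpowers_le]
          exact (EE_iff f hfa m0).2 h1
        exact h4 h3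
      by_contra hfP
      obtain ⟨γ, μ, h5, _, h7, h8, h9⟩ := hsep f hfP
      exact h8 ((EE_iff f hfa (Units.mk0 γ h5, Units.mk0 μ h7)).1 (hle ((hM _).2 h9)))

end H79SO
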