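import Mathlib
import Pool.Agent.T6.H79.SO.Final
import Pool.Agent.T6.H79.SO.Five
import Pool.Agent.T6.H79.SO.Ternary
import Pool.Agent.T6.H79.SO.Binary3

open Finset

namespace H79SO

theorem local_mono {F K : Type} [Field F] [Field K] (k l : ℕ) (hkl : k ≤ l)
    (P : Submodule F (K → F)) (h : LocalChar k P) : LocalChar l P := by
  obtain ⟨T, hT⟩ := h
  let up : Constr F K k → Constr F K l := fun C =>
    { pt := fun i => if h : (i : ℕ) < k then C.pt ⟨i, h⟩ else 0
      S := {v | (fun i : Fin k => v (Fin.castLE hkl i)) ∈ C.S}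
      proper := by
        intro hS
        apply C.proper
        rw [Set.eq_univ_iff_forall] at hS ⊢
        intro u
        have := hS (fun i => if h : (i : ℕ) < k then u ⟨i, h⟩ else 0)
        simpa using this }
  refine ⟨up '' T, fun f => ?_⟩
  rw [hT]
  have key : ∀ C : Constr F K k, Sat f (up C) ↔ Sat f C := by
    intro C
    unfold Sat
    simp [up]
  constructor
  · rintro h _ ⟨C, hC, rfl⟩
    exact (key C).2 (h C hC)
  · intro h C hC
    exact (key C).1 (h _ ⟨C, hC, rfl⟩)

theorem kPrime_le {F K : Type} [Field F] [Field K] (P : Submodule F (K → F)) (B : ℕ)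
    (h : ∃ k' ≤ B, SingleOrbit k' P) : SingleOrbit (kPrime P) P ∧ kPrime P ≤ B := by
  obtain ⟨k', h1, h2⟩ := h
  exact ⟨Nat.sInf_mem (s := {k : ℕ | SingleOrbit k P}) ⟨k', h2⟩, (Nat.sInf_le h2).trans h1⟩

theorem card_zero {F K : Type} [Field F] [Field K] [Fintype K] [Algebra F K] :
    (Fintype.card K : F) = 0 := by
  apply (algebraMap F K).injective
  rw [map_natCast, map_zero]
  exact Nat.cast_card_eq_zero K

theorem ternary' {F K : Type} [Field F] [Field K] [Finite F] [Finite K] [Algebra F K]
    (k : ℕ) (hk3 : k ≤ 3) (P : Submodule F (K → F)) (hP : AffInv P) (htop : P ≠ ⊤)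
    (hk : LocalChar k P) : SingleOrbit (kPrime P) P ∧ kPrime P ≤ 3 := by
  classical
  haveI : Fintype K := Fintype.ofFinite K
  exact kPrime_le P 3 (ternary card_zero k hk3 P hP htop hk)

theorem binary' {F K : Type} [Field F] [Field K] [Finite K] [Algebra F K]
    (hF : Nat.card F = 2)
    (k : ℕ) (hk5 : k ≤ 5) (P : Submodule F (K → F)) (hP : AffInv P) (htop : P ≠ ⊤)
    (hk : LocalChar k P) : SingleOrbit (kPrime P) P ∧ kPrime P ≤ 4 := by
  classical
  haveI : Fintype K := Fintype.ofFinite K
  haveI : Finite F := Nat.finite_of_card_ne_zero (by rw [hF]; norm_num)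
  haveI : Fintype F := Fintype.ofFinite F
  have hF' : Fintype.card F = 2 := by rw [← Nat.card_eq_fintype_card, hF]
  have h01 : ∀ c : F, c = 0 ∨ c = 1 := by
    intro c
    by_contra hcon
    push Not at hcon
    have : ({0, 1, c} : Finset F).card ≤ Fintype.card F := Finset.card_le_univ _
    rw [hF', Finset.card_insert_of_notMem, Finset.card_insert_of_notMem,
      Finset.card_singleton] at this
    · omega
    · simpa using hcon.2.symm
    · simp only [Finset.mem_insert, Finset.mem_singleton, not_or]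
      exact ⟨zero_ne_one, hcon.1.symm⟩
  have h11 : (1 : F) + 1 = 0 := by
    rcases h01 (1 + 1) with h | h
    · exact h
    · exfalso
      have : (1 : F) = 0 := by linear_combination h
      exact one_ne_zero this
  have h2 : ∀ c : F, c + c = 0 := by
    intro c; linear_combination c * h11
  have hK1 : (1 : K) + 1 = 0 := by
    have := congrArg (algebraMap F K) h11
    rwa [map_add, map_one, map_zero] at this
  have hK : ∀ x : K, x + x = 0 := by
    intro x; linear_combination x * hK1
  have hev : ∃ m, Fintype.card K = 2 * m := by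
    haveI : CharP K 2 := by
      refine CharTwo.of_one_ne_zero_of_two_eq_zero one_ne_zero ?_
      rw [← one_add_one_eq_two]; exact hK1
    obtain ⟨n, _, hn⟩ := FiniteField.card K 2
    refine ⟨2 ^ ((n : ℕ) - 1), ?_⟩
    rw [hn, ← pow_succ']
    congr 1
    have := n.pos
    omega
  exact kPrime_le P 4 (binary h01 h2 hK card_zero hev k hk5 P hP htop hk)

/-- no bound for `k ≥ 5` if `q` varies (already for `K = F`) -/
theorem unbounded5 (k : ℕ) (hk : 5 ≤ k) (B : ℕ) : ∃ (K : Type) (_ : Field K) (_ : Finite K),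
    ∃ P : Submodule K (K → K), AffInv P ∧ P ≠ ⊤ ∧ LocalChar k P ∧ B < kPrime P := by
  classical
  obtain ⟨t, ht0, _, hω⟩ := exists_degree (B + 1)
  haveI : Fact (Nat.Prime 2) := ⟨Nat.prime_two⟩
  haveI : Fintype (GaloisField 2 t) := Fintype.ofFinite _
  have hcard : Fintype.card (GaloisField 2 t) = 2 ^ t := by
    rw [← Nat.card_eq_fintype_card, GaloisField.card 2 t ht0]
  have hc : Fintype.card (Fin (B + 1) ⊕ Fin (B + 1)) ≤ Fintype.card t.primeFactors := by
    rw [Fintype.card_sum, Fintype.card_fin, Fintype.card_coe]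
    omega
  obtain ⟨ι⟩ := Function.Embedding.nonempty_of_card_le hc
  obtain ⟨P, h1, h2, h3, h4⟩ := lower5 (K := GaloisField 2 t) 2 t hcard ht0 (B + 1) (by omega)
    (fun i => (ι i : ℕ)) (fun i => (Nat.prime_of_mem_primeFactors (ι i).2).two_le) (by
      intro i j hij
      refine (Nat.coprime_primes (Nat.prime_of_mem_primeFactors (ι i).2)
        (Nat.prime_of_mem_primeFactors (ι j).2)).2 ?_
      intro h
      exact hij (ι.injective (Subtype.ext h)))
    (fun i => Nat.dvd_of_mem_primeFactors (ι i).2)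
  have hN : Nat.card (GaloisField 2 t) = 2 ^ t := by rw [Nat.card_eq_fintype_card, hcard]
  have h5 := upper' (F := GaloisField 2 t) 2 t Nat.prime_two hN 5 P h1 h2 h3
  have h6 := h4 _ h5.1
  exact ⟨GaloisField 2 t, inferInstance, inferInstance, P, h1, h2, local_mono 5 k hk P h3,
    by omega⟩

/-- no bound for `k ≥ 6`, for every fixed `q` -/
theorem unbounded6 (F : Type) [Field F] [Finite F] (k : ℕ) (hk : 6 ≤ k) (B : ℕ) :
    ∃ (K : Type) (_ : Field K) (_ : Finite K) (_ : Algebra F K),
      ∃ P : Submodule F (K → F), AffInv P ∧ P ≠ ⊤ ∧ LocalChar k P ∧ B < kPrime P := by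
  obtain ⟨t, _, K, i1, i2, i3, _, P, h1, h2, h3, h4⟩ :=
    lower_degree F (B + 1) 1 (le_refl 1) (by omega)
  rw [Nat.choose_one_right] at h4
  exact ⟨K, i1, i2, i3, P, h1, h2, local_mono 6 k hk P h3, by omega⟩

end H79SO
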